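import Pool.Agent.Helper57.UC.Defs
import Pool.Agent.Helper57.LJ.Max
import Pool.Agent.Helper37.PC.Final

set_option autoImplicit false

/-!
Unpredictable choice functions.
-/

namespace Pool.Agent.Helper57.UC

open Finset Filter Topology
open Pool.Agent.Helper25.RC (below mem_below below_subset_range repF_below_le)
open Pool.Agent.Helper57.PC (Fr En lift lift_coe ch ch_eq_e choice_sum)
open Pool.Agent.Helper37.PC (core' BQ)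

lemma rep_eq (A : Set ℕ) (n : ℕ) : rep A n = Pool.Agent.Helper25.RC.rep A n := rfl

lemma upTo_eq (D : Set ℕ) (x : ℕ) : upTo D x = below D x := rfl

lemma sum_rep_eq (A : Set ℕ) (x : ℕ) : ∑ n ∈ range x, (rep A n : ℝ) ^ 2 =
    ∑ n ∈ range x, (Pool.Agent.Helper25.RC.rep A n : ℝ) ^ 2 := rfl

/-- the local clause -/
theorem local_clause (b w : ℕ) (hb : 2 ≤ b) (ε δ : ℝ) (hε : 0 < ε) (hδ : 0 < δ) :
    ∃ c : ℝ, 0 < c ∧ ∃ K₀ : ℕ, ∀ (A D : Set ℕ) (f : ℕ → ℕ), IsChoice A D f → ∀ K ≥ K₀,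
      δ * (b : ℝ) ^ K ≤ #(upTo D (b ^ K)) → GuessedLocally b w ε D f K →
      ((b : ℝ) ^ K) ^ (1 + 3 * c) ≤ ∑ n ∈ range (2 * b ^ K), (rep A n : ℝ) ^ 2 ∧
        ∃ n < 2 * b ^ K, ((b : ℝ) ^ K) ^ c ≤ rep A n := by
  classical
  obtain ⟨c, hc, K₀, h⟩ := Pool.Agent.Helper57.LJ.local_choice_max b hb w ε δ hε hδ
  refine ⟨c, hc, K₀, fun A D f hf K hK hD hg => ?_⟩
  obtain ⟨J, hJ, hhit⟩ := hg
  have hQ : ∀ i, ∃ Q : Finset ℕ, i < K → #Q ≤ w ∧ Pool.Agent.Helper57.LJ.DependsOn b Q (J i) := by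
    intro i
    by_cases hi : i < K
    · obtain ⟨Q, hQ⟩ := hJ i hi
      exact ⟨Q, fun _ => hQ⟩
    · exact ⟨∅, fun h' => absurd h' hi⟩
  choose Q hQ using hQ
  refine h K hK A D f hf hD J Q hQ ?_
  refine le_trans (le_of_eq ?_) hhit
  rw [mul_assoc]
  rfl

/-- the quadratic clause -/
theorem quadratic_clause (A D : Set ℕ) (f : ℕ → ℕ) (hf : IsChoice A D f) (X : Set ℕ)
    (hX : X.Infinite) (C δ : ℝ) (hδ : 0 < δ)
    (hr : ∀ x ∈ X, ∑ n ∈ range (2 * x), (rep A n : ℝ) ^ 2 ≤ C * x) :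
    {ψ : ℝ | 0 ≤ ψ ∧ ψ < 1 ∧ GuessedQuadratically δ X D f ψ}.Finite := by
  set Ψ := {ψ : ℝ | 0 ≤ ψ ∧ ψ < 1 ∧ GuessedQuadratically δ X D f ψ} with hΨ
  by_contra hinf
  have hcor : Ψ.Infinite := hinf
  have hch : ∀ ψ : ℝ, ∃ h : ℕ → ℂ, ψ ∈ Ψ → (∀ n, ‖h n‖ ≤ 1) ∧ QuadraticAlmostPeriodic h ∧
      ∀ᶠ x : ℕ in atTop, x ∈ X →
        δ * x ≤ ‖∑ n ∈ upTo D x, e (ψ * f n) * (starRingEnd ℂ) (h n)‖ := by
    intro ψ
    by_cases h : ψ ∈ Ψ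
    · obtain ⟨g, hg⟩ := h.2.2
      exact ⟨g, fun _ => hg⟩
    · exact ⟨0, fun h' => absurd h' h⟩
  choose g hg using hch
  have hbq : ∀ ψ ∈ Ψ, BQ (g ψ) := fun ψ hψ =>
    Pool.Agent.Helper37.PC.QuadraticAlmostPeriodic.bq (hg ψ hψ).2.1
  have hlift : ∀ ψ ∈ Ψ, lift (ψ : Fr) = ψ := fun ψ hψ => lift_coe ⟨hψ.1, hψ.2.1⟩
  have hfr : ∃ᶠ x : ℕ in atTop, x ∈ X := Nat.frequently_atTop_iff_infinite.2 hX
  have hne : NeBot (atTop ⊓ 𝓟 X : Filter ℕ) := frequently_mem_iff_neBot.1 hfr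
  have hX' : ∀ᶠ x : ℕ in (atTop ⊓ 𝓟 X : Filter ℕ), x ∈ X := mem_inf_of_right (mem_principal_self _)
  classical
  refine core' A (atTop ⊓ 𝓟 X) inf_le_left (K := |C| + 1) (by positivity) hδ ?_
    ((fun ψ : ℝ => (ψ : Fr)) '' Ψ) ?_ (fun φ => g (lift φ)) ?_ ?_
    (fun x a b => if a + b < x ∧ a + b ∈ D ∧ a = f (a + b) then (1 : ℂ) else 0) (fun x a b => ?_) ?_
  · filter_upwards [hX'] with x hx
    have h1 : En (below A x) x ≤ ∑ n ∈ range (2 * x), (rep A n : ℝ) ^ 2 := by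
      unfold En
      refine Finset.sum_le_sum fun n _ => ?_
      have h2 : (Pool.Agent.Helper25.RC.repF (below A x) n : ℝ) ≤ rep A n := by
        exact_mod_cast repF_below_le A x n
      exact pow_le_pow_left₀ (Nat.cast_nonneg _) h2 2
    refine h1.trans ((hr x hx).trans ?_)
    have hx0 : (0 : ℝ) ≤ x := Nat.cast_nonneg _
    nlinarith [le_abs_self C]
  · refine hcor.image fun ψ hψ ψ' hψ' he => ?_
    have := congrArg lift he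
    rwa [hlift ψ hψ, hlift ψ' hψ'] at this
  · rintro _ ⟨ψ, hψ, rfl⟩ _ ⟨ψ', hψ', rfl⟩
    rw [hlift ψ hψ, hlift ψ' hψ']
    exact BQ.conj_mul (hg ψ hψ).1 (hbq ψ hψ) (hbq ψ' hψ')
  · rintro _ ⟨ψ, hψ, rfl⟩ n
    rw [hlift ψ hψ]
    exact (hg ψ hψ).1 n
  · split_ifs
    · rw [norm_one]
    · rw [norm_zero]
      exact zero_le_one
  · rintro _ ⟨ψ, hψ, rfl⟩
    rw [hlift ψ hψ]
    have h2 : ∀ᶠ x : ℕ in (atTop ⊓ 𝓟 X : Filter ℕ), x ∈ X →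
        δ * x ≤ ‖∑ n ∈ upTo D x, e (ψ * f n) * (starRingEnd ℂ) (g ψ n)‖ :=
      inf_le_left (a := atTop) (b := 𝓟 X) (hg ψ hψ).2.2
    filter_upwards [h2, hX'] with x hx hxX
    rw [choice_sum A D f hf x (fun a n => ch a (ψ : Fr) * (starRingEnd ℂ) (g ψ n))]
    simp_rw [ch_eq_e]
    exact hx hxX

/-- Unpredictable choice. -/
theorem main (b w : ℕ) (hb : 2 ≤ b) (ε δ : ℝ) (hε : 0 < ε) (hδ : 0 < δ) :
    ∃ c : ℝ, 0 < c ∧ ∃ K₀ : ℕ, ∀ (A D : Set ℕ) (f : ℕ → ℕ), IsChoice A D f →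
      (∀ K ≥ K₀, δ * (b : ℝ) ^ K ≤ #(upTo D (b ^ K)) → GuessedLocally b w ε D f K →
        ((b : ℝ) ^ K) ^ (1 + 3 * c) ≤ ∑ n ∈ range (2 * b ^ K), (rep A n : ℝ) ^ 2 ∧
          ∃ n < 2 * b ^ K, ((b : ℝ) ^ K) ^ c ≤ rep A n) ∧
      (∀ X : Set ℕ, X.Infinite → ∀ C : ℝ,
        (∀ x ∈ X, ∑ n ∈ range (2 * x), (rep A n : ℝ) ^ 2 ≤ C * x) →
        {ψ : ℝ | 0 ≤ ψ ∧ ψ < 1 ∧ GuessedQuadratically δ X D f ψ}.Finite) := by
  obtain ⟨c, hc, K₀, h⟩ := local_clause b w hb ε δ hε hδ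
  exact ⟨c, hc, K₀, fun A D f hf => ⟨h A D f hf, fun X hX C hr =>
    quadratic_clause A D f hf X hX C δ hδ hr⟩⟩

end Pool.Agent.Helper57.UC
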