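import Pool.Agent.Helper57.UC.Df

/-!
# Convex bodies with property `Sz(r)`: positive relations of minimal positive bases

MP_541d70_co.  `Nice r H`: `H` is closed under positive scaling, every vector is a combination of
elements of `H` with coefficients `≥ 0`, and circuits of `H` have at most `r + 1` elements.
-/

set_option autoImplicit false

namespace Pool.Agent.Helper57.UC

variable {V : Type} [AddCommGroup V] [Module ℝ V]

/-- The properties of the cone of outer normals. -/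
structure Nice (r : ℕ) (H : Set V) : Prop where
  smul : ∀ t : ℝ, 0 < t → ∀ h ∈ H, t • h ∈ H
  pos : ∀ v : V, ∃ (ι : Type) (_ : Fintype ι) (c : ι → ℝ) (s : ι → V), (∀ i, 0 ≤ c i) ∧
    (∀ i, s i ∈ H) ∧ ∑ i, c i • s i = v
  circ : ∀ (ι : Type) [Fintype ι] (s : ι → V), LinearIndependent ℝ s → (∀ i, s i ∈ H) →
    -(∑ i, s i) ∈ H → Fintype.card ι ≤ r

/-- `B` spans `V` positively. -/
def PSpan (B : Finset V) : Prop :=
  ∀ v : V, ∃ c : V → ℝ, (∀ b ∈ B, 0 ≤ c b) ∧ ∑ b ∈ B, c b • b = v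

/-- Linear relations on `B`. -/
def Rel (B : Finset V) (ρ : V → ℝ) : Prop := ∑ b ∈ B, ρ b • b = 0

/-- Relations with coefficients `≥ 0`. -/
def PRel (B : Finset V) (ρ : V → ℝ) : Prop := Rel B ρ ∧ ∀ b ∈ B, 0 ≤ ρ b

/-- `F_b ⊆ F_y`: every relation with coefficients `≥ 0` which vanishes at `b` vanishes at `y`. -/
def Le (B : Finset V) (b y : V) : Prop := ∀ ρ, PRel B ρ → ρ b = 0 → ρ y = 0

/-- `F_b` is maximal. -/
def Mx (B : Finset V) (b : V) : Prop := ∀ y ∈ B, Le B b y → Le B y b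

theorem Rel.add {B : Finset V} {ρ σ : V → ℝ} (h : Rel B ρ) (h' : Rel B σ) : Rel B (ρ + σ) := by
  unfold Rel at *
  simp only [Pi.add_apply, add_smul, Finset.sum_add_distrib, h, h', add_zero]

theorem Rel.smul {B : Finset V} {ρ : V → ℝ} (h : Rel B ρ) (t : ℝ) : Rel B (t • ρ) := by
  unfold Rel at *
  simp only [Pi.smul_apply, smul_eq_mul, mul_smul, ← Finset.smul_sum, h, smul_zero]

theorem Rel.neg {B : Finset V} {ρ : V → ℝ} (h : Rel B ρ) : Rel B (-ρ) := by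
  have := h.smul (-1)
  rwa [neg_one_smul] at this

theorem PRel.add {B : Finset V} {ρ σ : V → ℝ} (h : PRel B ρ) (h' : PRel B σ) :
    PRel B (ρ + σ) :=
  ⟨h.1.add h'.1, fun b hb => add_nonneg (h.2 b hb) (h'.2 b hb)⟩

theorem PRel.zero (B : Finset V) : PRel B (0 : V → ℝ) :=
  ⟨by simp [Rel], fun _ _ => le_rfl⟩

theorem Le.refl (B : Finset V) (b : V) : Le B b b := fun _ _ h => h

theorem Le.trans {B : Finset V} {b x y : V} (h : Le B b x) (h' : Le B x y) : Le B b y :=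
  fun ρ hρ h0 => h' ρ hρ (h ρ hρ h0)

/-- A multiple of a positive function dominates. -/
theorem large {V : Type} (S : Finset V) (f g : V → ℝ) (hg : ∀ x ∈ S, 0 < g x) :
    ∃ t : ℝ, 0 ≤ t ∧ ∀ x ∈ S, 0 ≤ f x + t * g x := by
  refine ⟨∑ x ∈ S, |f x| / g x, Finset.sum_nonneg fun x hx =>
    div_nonneg (abs_nonneg _) (hg x hx).le, fun x hx => ?_⟩
  have h1 : |f x| / g x ≤ ∑ x ∈ S, |f x| / g x :=
    Finset.single_le_sum (f := fun x => |f x| / g x)
      (fun y hy => div_nonneg (abs_nonneg _) (hg y hy).le) hx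
  have h2 : |f x| = |f x| / g x * g x := by
    rw [div_mul_cancel₀ _ (hg x hx).ne']
  have h3 := mul_le_mul_of_nonneg_right h1 (hg x hx).le
  have h4 := neg_abs_le (f x)
  linarith

/-- Caratheodory's theorem for cones. -/
theorem car [DecidableEq V] (S : Finset V) (c : V → ℝ) (hc : ∀ x ∈ S, 0 ≤ c x) :
    ∃ T ⊆ S, ∃ d : V → ℝ, (∀ x ∈ T, 0 < d x) ∧ LinearIndepOn ℝ id (T : Set V) ∧
      ∑ x ∈ T, d x • x = ∑ x ∈ S, c x • x := by
  classical
  obtain ⟨P, hP⟩ : ∃ P : ℕ → Prop, ∀ n, P n ↔ ∃ T ⊆ S, T.card = n ∧ ∃ d : V → ℝ,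
      (∀ x ∈ T, 0 ≤ d x) ∧ ∑ x ∈ T, d x • x = ∑ x ∈ S, c x • x := ⟨_, fun _ => Iff.rfl⟩
  have hex : ∃ n, P n := ⟨S.card, (hP _).2 ⟨S, subset_rfl, rfl, c, hc, rfl⟩⟩
  obtain ⟨T, hT, hcard, d, hd, hsum⟩ := (hP _).1 (Nat.find_spec hex)
  -- no smaller representation
  have hmin : ∀ T' ⊆ S, T'.card < T.card → ∀ d' : V → ℝ, (∀ x ∈ T', 0 ≤ d' x) →
      ∑ x ∈ T', d' x • x ≠ ∑ x ∈ S, c x • x := by
    intro T' hT' hlt d' hd' hs
    rw [hcard] at hlt
    exact Nat.find_min hex hlt ((hP _).2 ⟨T', hT', rfl, d', hd', hs⟩)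
  have hera : ∀ d' : V → ℝ, (∀ x ∈ T, 0 ≤ d' x) → ∑ x ∈ T, d' x • x = ∑ x ∈ S, c x • x →
      ∀ x ∈ T, d' x ≠ 0 := by
    intro d' hd' hs x hx h0
    refine hmin (T.erase x) ((T.erase_subset x).trans hT) (Finset.card_erase_lt_of_mem hx) d'
      (fun y hy => hd' y (Finset.mem_of_mem_erase hy)) ?_
    rw [← hs, ← Finset.add_sum_erase T (fun y => d' y • y) hx]
    simp only [h0, zero_smul, zero_add]
  refine ⟨T, hT, d, fun x hx => lt_of_le_of_ne (hd x hx) (hera d hd hsum x hx).symm, ?_, hsum⟩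
  by_contra hli
  rw [linearIndepOn_finset_iff] at hli
  push Not at hli
  obtain ⟨g, hg, x1, hx1, hgx1⟩ := hli
  simp only [id_eq] at hg
  -- a relation with a positive coefficient
  obtain ⟨g', hg', x2, hx2, hgx2⟩ : ∃ g' : V → ℝ, ∑ x ∈ T, g' x • x = 0 ∧ ∃ x ∈ T, 0 < g' x := by
    rcases lt_or_gt_of_ne hgx1 with h | h
    · refine ⟨-g, ?_, x1, hx1, ?_⟩
      · simp only [Pi.neg_apply, neg_smul, Finset.sum_neg_distrib, hg, neg_zero]
      · simpa using h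
    · exact ⟨g, hg, x1, hx1, h⟩
  obtain ⟨x0, hx0, hmin0⟩ := Finset.exists_min_image (T.filter fun x => 0 < g' x)
    (fun x => d x / g' x) ⟨x2, Finset.mem_filter.2 ⟨hx2, hgx2⟩⟩
  rw [Finset.mem_filter] at hx0
  refine hera (fun x => d x - d x0 / g' x0 * g' x) (fun x hx => ?_) ?_ x0 hx0.1 ?_
  · rcases lt_or_ge 0 (g' x) with h | h
    · have h1 := hmin0 x (Finset.mem_filter.2 ⟨hx, h⟩)
      have h2 := mul_le_mul_of_nonneg_right h1 h.le
      rw [div_mul_cancel₀ _ h.ne'] at h2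
      linarith
    · have h1 : 0 ≤ d x0 / g' x0 := div_nonneg (hd x0 hx0.1) hx0.2.le
      have h2 := hd x hx
      nlinarith
  · simp only [sub_smul, mul_smul, Finset.sum_sub_distrib, ← Finset.smul_sum, hg', smul_zero,
      sub_zero, hsum]
  · rw [div_mul_cancel₀ _ hx0.2.ne', sub_self]

/-- A positively spanning set has a relation with positive coefficients. -/
theorem PSpan.exists_pos {B : Finset V} (h : PSpan B) :
    ∃ ρ, Rel B ρ ∧ ∀ b ∈ B, 0 < ρ b := by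
  obtain ⟨c, hc, hs⟩ := h (-∑ b ∈ B, b)
  refine ⟨fun b => c b + 1, ?_, fun b hb => ?_⟩
  · unfold Rel
    simp only [add_smul, one_smul, Finset.sum_add_distrib, hs]
    exact neg_add_cancel _
  · have := hc b hb
    change 0 < c b + 1
    linarith

/-- Adding up relations. -/
theorem exists_sum (B S : Finset V) (b : V) (h : ∀ y ∈ S, ∃ ρ, PRel B ρ ∧ ρ b = 0 ∧ 0 < ρ y)
    (hS : S ⊆ B) : ∃ ρ, PRel B ρ ∧ ρ b = 0 ∧ ∀ y ∈ S, 0 < ρ y := by
  classical
  induction S using Finset.induction_on with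
  | empty => exact ⟨0, PRel.zero B, rfl, by simp⟩
  | insert x S hx ih =>
    obtain ⟨ρ, h1, h2, h3⟩ := ih (fun y hy => h y (Finset.mem_insert_of_mem hy))
      ((Finset.subset_insert x S).trans hS)
    obtain ⟨σ, g1, g2, g3⟩ := h x (Finset.mem_insert_self x S)
    refine ⟨ρ + σ, h1.add g1, ?_, fun y hy => ?_⟩
    · rw [Pi.add_apply, h2, g2, add_zero]
    · rw [Pi.add_apply]
      have hyB := hS hy
      rcases Finset.mem_insert.1 hy with rfl | hy
      · exact add_pos_of_nonneg_of_pos (h1.2 _ hyB) g3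
      · exact add_pos_of_pos_of_nonneg (h3 _ hy) (g1.2 _ hyB)

theorem exists_of_not_le {B : Finset V} {b y : V} (hy : y ∈ B) (h : ¬ Le B b y) :
    ∃ ρ, PRel B ρ ∧ ρ b = 0 ∧ 0 < ρ y := by
  unfold Le at h
  push Not at h
  obtain ⟨ρ, h1, h2, h3⟩ := h
  exact ⟨ρ, h1, h2, lt_of_le_of_ne (h1.2 y hy) (Ne.symm h3)⟩

/-- In a minimal positively spanning set every `F_b` is contained in some `F_y`, `y ≠ b`. -/
theorem exists_le {B : Finset V} (h : PSpan B) (hmin : ∀ B' ⊂ B, ¬ PSpan B') {b : V}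
    (hb : b ∈ B) : ∃ y ∈ B, y ≠ b ∧ Le B b y := by
  classical
  by_contra hcon
  push Not at hcon
  obtain ⟨σ, h1, h2, h3⟩ := exists_sum B (B.erase b) b (fun y hy => exists_of_not_le
    (Finset.mem_of_mem_erase hy) (hcon y (Finset.mem_of_mem_erase hy) (Finset.ne_of_mem_erase hy)))
    (B.erase_subset b)
  obtain ⟨ρ, g1, g2⟩ := h.exists_pos
  refine hmin (B.erase b) (Finset.erase_ssubset hb) fun v => ?_
  obtain ⟨c, hc, hs⟩ := h v
  obtain ⟨t, ht, hlt⟩ := large (B.erase b) (fun x => c x - c b / ρ b * ρ x) σ h3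
  refine ⟨fun x => c x - c b / ρ b * ρ x + t * σ x, hlt, ?_⟩
  have h4 : ∑ x ∈ B, (c x - c b / ρ b * ρ x + t * σ x) • x = v := by
    simp only [add_smul, sub_smul, mul_smul, Finset.sum_add_distrib, Finset.sum_sub_distrib,
      ← Finset.smul_sum]
    have e1 : ∑ b ∈ B, ρ b • b = 0 := g1
    have e2 : ∑ b ∈ B, σ b • b = 0 := h1.1
    rw [hs, e1, e2, smul_zero, smul_zero, sub_zero, add_zero]
  rw [← Finset.add_sum_erase B _ hb] at h4
  have h5 : c b - c b / ρ b * ρ b + t * σ b = 0 := by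
    rw [div_mul_cancel₀ _ (g2 b hb).ne', h2]
    ring
  rw [h5, zero_smul, zero_add] at h4
  exact h4

/-- Relations are proportional on the class of a maximal element. -/
theorem prop0 {B : Finset V} (h : PSpan B) {b : V} (hb : b ∈ B) (hmx : Mx B b) (σ : V → ℝ)
    (hσ : Rel B σ) (hσb : σ b = 0) (z : V) (hz : z ∈ B) (hz' : Le B b z) : 0 ≤ σ z := by
  classical
  by_contra hneg
  push Not at hneg
  obtain ⟨ρ, g1, g2⟩ := h.exists_pos
  obtain ⟨z0, hz0, hmax⟩ := Finset.exists_max_image (B.filter fun y => Le B b y)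
    (fun y => -σ y / ρ y) ⟨z, Finset.mem_filter.2 ⟨hz, hz'⟩⟩
  rw [Finset.mem_filter] at hz0
  obtain ⟨s, hs⟩ : ∃ s : ℝ, s = -σ z0 / ρ z0 := ⟨_, rfl⟩
  have hspos : 0 < s := by
    have h1 := hmax z (Finset.mem_filter.2 ⟨hz, hz'⟩)
    rw [← hs] at h1
    have h2 : 0 < -σ z / ρ z := div_pos (by linarith) (g2 z hz)
    linarith
  obtain ⟨ρ0, k1, k2, k3⟩ := exists_sum B (B.filter fun y => ¬ Le B b y) b (fun y hy =>
    exists_of_not_le (Finset.mem_filter.1 hy).1 (Finset.mem_filter.1 hy).2)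
    (Finset.filter_subset _ _)
  obtain ⟨t, ht, hlt⟩ := large (B.filter fun y => ¬ Le B b y) (fun x => σ x + s * ρ x) ρ0 k3
  have hτ : PRel B (σ + s • ρ + t • ρ0) := by
    refine ⟨(hσ.add (g1.smul s)).add (k1.1.smul t), fun y hy => ?_⟩
    simp only [Pi.add_apply, Pi.smul_apply, smul_eq_mul]
    by_cases hy' : Le B b y
    · have e1 := hmax y (Finset.mem_filter.2 ⟨hy, hy'⟩)
      rw [← hs] at e1
      have e2 := mul_le_mul_of_nonneg_right e1 (g2 y hy).le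
      rw [div_mul_cancel₀ _ (g2 y hy).ne'] at e2
      rw [hy' ρ0 k1 k2]
      linarith
    · exact hlt y (Finset.mem_filter.2 ⟨hy, hy'⟩)
  have h0 : (σ + s • ρ + t • ρ0) z0 = 0 := by
    simp only [Pi.add_apply, Pi.smul_apply, smul_eq_mul]
    rw [hz0.2 ρ0 k1 k2, hs, div_mul_cancel₀ _ (g2 z0 hz0.1).ne']
    ring
  have h1 := hmx z0 hz0.1 hz0.2 _ hτ h0
  simp only [Pi.add_apply, Pi.smul_apply, smul_eq_mul] at h1
  rw [hσb, k2] at h1
  have h2 := mul_pos hspos (g2 b hb)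
  linarith

theorem prop {B : Finset V} (h : PSpan B) {b : V} (hb : b ∈ B) (hmx : Mx B b) (z : V)
    (hz : z ∈ B) (hz' : Le B b z) : ∃ c : ℝ, 0 < c ∧ ∀ σ, Rel B σ → σ z = c * σ b := by
  obtain ⟨ρ, g1, g2⟩ := h.exists_pos
  refine ⟨ρ z / ρ b, div_pos (g2 z hz) (g2 b hb), fun σ hσ => ?_⟩
  have hr : Rel B (σ + (-(σ b / ρ b)) • ρ) := hσ.add (g1.smul _)
  have h0 : (σ + (-(σ b / ρ b)) • ρ) b = 0 := by
    simp only [Pi.add_apply, Pi.smul_apply, smul_eq_mul, neg_mul]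
    rw [div_mul_cancel₀ _ (g2 b hb).ne', add_neg_cancel]
  have h1 := prop0 h hb hmx _ hr h0 z hz hz'
  have h2 := prop0 h hb hmx _ hr.neg (by rw [Pi.neg_apply, h0, neg_zero]) z hz hz'
  rw [Pi.neg_apply] at h2
  have h3 : (σ + (-(σ b / ρ b)) • ρ) z = 0 := le_antisymm (by linarith) h1
  simp only [Pi.add_apply, Pi.smul_apply, smul_eq_mul, neg_mul] at h3
  have h4 : ρ z / ρ b * σ b = σ b / ρ b * ρ z := by ring
  rw [h4]
  linarith

/-- Every `F_y` is contained in a maximal one. -/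
theorem exists_mx (B : Finset V) (y : V) (hy : y ∈ B) : ∃ m ∈ B, Mx B m ∧ Le B y m := by
  classical
  induction h : (B.filter fun x => Le B y x).card using Nat.strong_induction_on generalizing y with
  | _ n ih =>
    by_cases hm : Mx B y
    · exact ⟨y, hy, hm, Le.refl B y⟩
    · unfold Mx at hm
      push Not at hm
      obtain ⟨x, hx, h1, h2⟩ := hm
      obtain ⟨m, hmB, hmm, hxm⟩ := ih _ (by
        rw [← h]
        apply Finset.card_lt_card
        refine ⟨fun z hz => ?_, fun hsub => h2 ?_⟩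
        · rw [Finset.mem_filter] at hz ⊢
          exact ⟨hz.1, h1.trans hz.2⟩
        · exact (Finset.mem_filter.1 (hsub (Finset.mem_filter.2 ⟨hy, Le.refl B y⟩))).2) x hx rfl
      exact ⟨m, hmB, hmm, h1.trans hxm⟩

/-- Every relation with coefficients `≥ 0`, not identically zero, is positive at some maximal
element. -/
theorem exists_mx_ne {B : Finset V} (h : PSpan B) {ρ : V → ℝ} (hρ : PRel B ρ)
    (hne : ∃ y ∈ B, ρ y ≠ 0) : ∃ m ∈ B, Mx B m ∧ ρ m ≠ 0 := by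
  classical
  by_contra hcon
  push Not at hcon
  obtain ⟨y, hy, hy0⟩ := hne
  obtain ⟨σ, g1, g2⟩ := h.exists_pos
  have hypos : 0 < ρ y := lt_of_le_of_ne (hρ.2 y hy) (Ne.symm hy0)
  obtain ⟨x, hx, hmin⟩ := Finset.exists_min_image (B.filter fun x => 0 < ρ x)
    (fun x => σ x / ρ x) ⟨y, Finset.mem_filter.2 ⟨hy, hypos⟩⟩
  rw [Finset.mem_filter] at hx
  obtain ⟨t, ht⟩ : ∃ t : ℝ, t = σ x / ρ x := ⟨_, rfl⟩
  have hτ : PRel B (σ + (-t) • ρ) := by
    refine ⟨g1.add (hρ.1.smul _), fun z hz => ?_⟩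
    simp only [Pi.add_apply, Pi.smul_apply, smul_eq_mul, neg_mul]
    rcases (hρ.2 z hz).eq_or_lt with h0 | h0
    · rw [← h0]
      have := g2 z hz
      linarith
    · have e1 := hmin z (Finset.mem_filter.2 ⟨hz, h0⟩)
      rw [← ht] at e1
      have e2 := mul_le_mul_of_nonneg_right e1 h0.le
      rw [div_mul_cancel₀ _ h0.ne'] at e2
      linarith
  have h0 : (σ + (-t) • ρ) x = 0 := by
    simp only [Pi.add_apply, Pi.smul_apply, smul_eq_mul, neg_mul]
    rw [ht, div_mul_cancel₀ _ hx.2.ne', add_neg_cancel]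
  obtain ⟨m, hm, hmx, hle⟩ := exists_mx B x hx.1
  have h1 := hle _ hτ h0
  simp only [Pi.add_apply, Pi.smul_apply, smul_eq_mul, neg_mul] at h1
  rw [hcon m hm hmx, mul_zero, neg_zero, add_zero] at h1
  have h2 := g2 m hm
  linarith

/-- The functional of a pair. -/
theorem exists_psi {B : Finset V} (h : PSpan B) {p q : V} (hp : p ∈ B) (hq : q ∈ B)
    (hpq : q ≠ p) {c : ℝ} (hc : 0 < c) (hrel : ∀ σ, Rel B σ → σ q = c * σ p) :
    ∃ ψ : V →ₗ[ℝ] ℝ, ψ p = 1 ∧ ψ q < 0 ∧ ∀ x ∈ B, x ≠ p → x ≠ q → ψ x = 0 := by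
  classical
  obtain ⟨Φ, hΦ⟩ : ∃ Φ : (B → ℝ) →ₗ[ℝ] V, ∀ α, Φ α = ∑ b : B, α b • (b : V) :=
    ⟨Fintype.linearCombination ℝ (fun b : B => (b : V)), fun α => by
      rw [Fintype.linearCombination_apply]⟩
  have hsurj : LinearMap.range Φ = ⊤ := by
    rw [LinearMap.range_eq_top]
    intro v
    obtain ⟨c, -, hs⟩ := h v
    refine ⟨fun b => c b, ?_⟩
    rw [hΦ, ← hs]
    exact Finset.sum_coe_sort B (fun b => c b • b)
  obtain ⟨g, hg⟩ := Φ.exists_rightInverse_of_surjective hsurj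
  obtain ⟨X, hX⟩ : ∃ X : (B → ℝ) →ₗ[ℝ] ℝ, ∀ α, X α = α ⟨p, hp⟩ - c⁻¹ * α ⟨q, hq⟩ :=
    ⟨LinearMap.proj ⟨p, hp⟩ - c⁻¹ • LinearMap.proj ⟨q, hq⟩, fun α => rfl⟩
  have hker : ∀ α, Φ α = 0 → X α = 0 := by
    intro α hα
    have h1 : Rel B (fun x => if hx : x ∈ B then α ⟨x, hx⟩ else 0) := by
      unfold Rel
      rw [← Finset.sum_coe_sort B, ← hα, hΦ]
      refine Finset.sum_congr rfl fun b _ => ?_
      change (if hx : (b : V) ∈ B then α ⟨b, hx⟩ else 0) • (b : V) = _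
      rw [dif_pos b.2]
    have h2 : (if hx : q ∈ B then α ⟨q, hx⟩ else 0) =
        c * (if hx : p ∈ B then α ⟨p, hx⟩ else 0) := hrel _ h1
    rw [dif_pos hq, dif_pos hp] at h2
    rw [hX, h2]
    field_simp
    ring
  have hval : ∀ b : B, X (g (b : V)) = X (Pi.single b 1) := by
    intro b
    rw [← sub_eq_zero, ← map_sub]
    apply hker
    rw [map_sub, sub_eq_zero]
    have h1 : Φ (g (b : V)) = (b : V) := LinearMap.congr_fun hg (b : V)
    rw [h1, hΦ, Finset.sum_eq_single b]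
    · rw [Pi.single_eq_same, one_smul]
    · intro b' _ hb'
      rw [Pi.single_eq_of_ne hb', zero_smul]
    · intro hb'
      exact absurd (Finset.mem_univ _) hb'
  refine ⟨X ∘ₗ g, ?_, ?_, ?_⟩
  · have h1 := hval ⟨p, hp⟩
    change X (g p) = 1
    rw [h1, hX, Pi.single_eq_same, Pi.single_eq_of_ne (by
      intro h2
      exact hpq (congrArg Subtype.val h2)), mul_zero, sub_zero]
  · have h1 := hval ⟨q, hq⟩
    change X (g q) < 0
    rw [h1, hX, Pi.single_eq_same, Pi.single_eq_of_ne (by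
      intro h2
      exact hpq (congrArg Subtype.val h2).symm), mul_one, zero_sub, neg_lt_zero]
    exact inv_pos.2 hc
  · intro x hx hxp hxq
    have h1 := hval ⟨x, hx⟩
    change X (g x) = 0
    rw [h1, hX, Pi.single_eq_of_ne (by
      intro h2
      exact hxp (congrArg Subtype.val h2).symm), Pi.single_eq_of_ne (by
      intro h2
      exact hxq (congrArg Subtype.val h2).symm), mul_zero, sub_zero]

/-- The pairs of a minimal positive basis. -/
theorem exists_pairs {B : Finset V} (h : PSpan B) (hmin : ∀ B' ⊂ B, ¬ PSpan B') :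
    ∃ (J : Finset V) (ψ : V → V →ₗ[ℝ] ℝ), J ⊆ B ∧ (∀ p ∈ J, ψ p p = 1) ∧
      (∀ p ∈ J, ∀ x ∈ B, x ≠ p → ψ p x ≤ 0) ∧ (∀ p ∈ J, ∀ p' ∈ J, p' ≠ p → ψ p p' = 0) ∧
      (∀ x ∈ B, ∀ p ∈ J, ∀ p' ∈ J, ψ p x ≠ 0 → ψ p' x ≠ 0 → p = p') ∧
      ∀ ρ, PRel B ρ → (∃ y ∈ B, ρ y ≠ 0) → ∃ p ∈ J, ρ p ≠ 0 := by
  classical
  -- representatives of the maximal classes
  obtain ⟨Q, hQ⟩ : ∃ Q : Finset V → Prop, ∀ J, Q J ↔ (∀ p ∈ J, Mx B p) ∧
      ∀ p ∈ J, ∀ p' ∈ J, Le B p p' → p = p' := ⟨_, fun _ => Iff.rfl⟩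
  obtain ⟨J, hJ, hJmax⟩ := Finset.exists_max_image (B.powerset.filter Q)
    Finset.card ⟨∅, by rw [Finset.mem_filter, hQ]; simp⟩
  rw [Finset.mem_filter, Finset.mem_powerset, hQ] at hJ
  obtain ⟨hJB, hJm, hJi⟩ := hJ
  have hcov : ∀ m ∈ B, Mx B m → ∃ p ∈ J, Le B p m := by
    intro m hm hmx
    by_contra hcon
    push Not at hcon
    have hmJ : m ∉ J := fun hmJ => hcon m hmJ (Le.refl B m)
    have h1 := hJmax (insert m J) (by
      rw [Finset.mem_filter, Finset.mem_powerset, hQ]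
      refine ⟨Finset.insert_subset hm hJB, ?_, ?_⟩
      · intro p hp
        rcases Finset.mem_insert.1 hp with rfl | hp
        · exact hmx
        · exact hJm p hp
      · intro p hp p' hp' hle
        rcases Finset.mem_insert.1 hp with e | hpJ
        · rcases Finset.mem_insert.1 hp' with e' | hpJ'
          · rw [e, e']
          · rw [e] at hle
            exact absurd (hmx p' (hJB hpJ') hle) (hcon p' hpJ')
        · rcases Finset.mem_insert.1 hp' with e' | hpJ'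
          · rw [e'] at hle
            exact absurd hle (hcon p hpJ)
          · exact hJi p hpJ p' hpJ' hle)
    rw [Finset.card_insert_of_notMem hmJ] at h1
    omega
  -- partners
  have hpart : ∀ p : V, ∃ (q : V) (ψ : V →ₗ[ℝ] ℝ), p ∈ J → (q ∈ B ∧ q ≠ p ∧ Le B p q ∧ ψ p = 1 ∧
      ψ q < 0 ∧ ∀ x ∈ B, x ≠ p → x ≠ q → ψ x = 0) := by
    intro p
    by_cases hp : p ∈ J
    · obtain ⟨q, hq, hqp, hle⟩ := exists_le h hmin (hJB hp)
      obtain ⟨c, hc, hrel⟩ := prop h (hJB hp) (hJm p hp) q hq hle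
      obtain ⟨ψ, h1, h2, h3⟩ := exists_psi h (hJB hp) hq hqp hc hrel
      exact ⟨q, ψ, fun _ => ⟨hq, hqp, hle, h1, h2, h3⟩⟩
    · exact ⟨0, 0, fun h => absurd h hp⟩
  choose q ψ hψ using hpart
  have hne : ∀ p ∈ J, ∀ x ∈ B, ψ p x ≠ 0 → Le B p x := by
    intro p hp x hx h0
    obtain ⟨-, -, h1, -, -, h2⟩ := hψ p hp
    by_contra hcon
    apply h0
    apply h2 x hx
    · rintro rfl
      exact hcon (Le.refl B _)
    · rintro rfl
      exact hcon h1
  refine ⟨J, ψ, hJB, fun p hp => (hψ p hp).2.2.2.1, ?_, ?_, ?_, ?_⟩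
  · intro p hp x hx hxp
    obtain ⟨-, -, -, -, h1, h2⟩ := hψ p hp
    by_cases hxq : x = q p
    · rw [hxq]
      exact h1.le
    · rw [h2 x hx hxp hxq]
  · intro p hp p' hp' hne'
    by_contra hcon
    exact hne' (hJi p hp p' hp' (hne p hp p' (hJB hp') hcon)).symm
  · intro x hx p hp p' hp' h1 h2
    have e1 := hne p hp x hx h1
    have e2 := hne p' hp' x hx h2
    exact hJi p hp p' hp' (e1.trans (hJm p' hp' x hx e2))
  · intro ρ hρ hex
    obtain ⟨m, hm, hmx, hm0⟩ := exists_mx_ne h hρ hex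
    obtain ⟨p, hp, hle⟩ := hcov m hm hmx
    exact ⟨p, hp, fun h0 => hm0 (hle ρ hρ h0)⟩

end Pool.Agent.Helper57.UC
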