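import Pool.Agent.Helper57.UC.A

/-!
# Convex bodies with property `Sz(r)`: coordinates in which all normals have small support
-/

set_option autoImplicit false

namespace Pool.Agent.Helper57.UC

variable {V : Type} [AddCommGroup V] [Module ℝ V]

/-- Existence of a minimal positive basis inside `H`. -/
theorem exists_B [FiniteDimensional ℝ V] {r : ℕ} {H : Set V} (h : Nice r H) :
    ∃ B : Finset V, ↑B ⊆ H ∧ PSpan B ∧ ∀ B' ⊂ B, ¬ PSpan B' := by
  classical
  -- some positively spanning finite subset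
  have h1 : ∀ v : V, ∃ S : Finset V, ↑S ⊆ H ∧ ∃ c : V → ℝ, (∀ b ∈ S, 0 ≤ c b) ∧
      ∑ b ∈ S, c b • b = v := by
    intro v
    obtain ⟨ι, _, c, s, hc, hs, hsum⟩ := h.pos v
    refine ⟨Finset.univ.image s, ?_, fun b => ∑ i ∈ Finset.univ.filter (fun i => s i = b), c i,
      fun b _ => Finset.sum_nonneg fun i _ => hc i, ?_⟩
    · intro x hx
      rw [Finset.mem_coe, Finset.mem_image] at hx
      obtain ⟨i, -, rfl⟩ := hx
      exact hs i
    · rw [← hsum, ← Finset.sum_fiberwise_of_maps_to (s := Finset.univ)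
        (t := Finset.univ.image s) (g := s) (fun i hi => Finset.mem_image_of_mem s hi)
        (fun i => c i • s i)]
      refine Finset.sum_congr rfl fun b _ => ?_
      rw [Finset.sum_smul]
      refine Finset.sum_congr rfl fun i hi => ?_
      rw [(Finset.mem_filter.1 hi).2]
  have h2 : ∃ B : Finset V, ↑B ⊆ H ∧ PSpan B := by
    choose S hS c hc hsum using h1
    obtain ⟨bs⟩ : Nonempty (Module.Basis (Fin (Module.finrank ℝ V)) ℝ V) :=
      ⟨Module.finBasis ℝ V⟩
    obtain ⟨B, hB⟩ : ∃ B : Finset V, B = Finset.univ.biUnion fun i => S (bs i) ∪ S (-(bs i)) :=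
      ⟨_, rfl⟩
    have hsub1 : ∀ i, S (bs i) ⊆ B := fun i x hx => by
      rw [hB, Finset.mem_biUnion]
      exact ⟨i, Finset.mem_univ _, Finset.mem_union_left _ hx⟩
    have hsub2 : ∀ i, S (-(bs i)) ⊆ B := fun i x hx => by
      rw [hB, Finset.mem_biUnion]
      exact ⟨i, Finset.mem_univ _, Finset.mem_union_right _ hx⟩
    refine ⟨B, ?_, ?_⟩
    · intro x hx
      rw [hB, Finset.mem_coe, Finset.mem_biUnion] at hx
      obtain ⟨i, -, hx⟩ := hx
      rcases Finset.mem_union.1 hx with hx | hx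
      · exact hS _ hx
      · exact hS _ hx
    · -- the cone of `B` is everything
      obtain ⟨C, hC⟩ : ∃ C : Set V, ∀ v, v ∈ C ↔ ∃ c : V → ℝ, (∀ b ∈ B, 0 ≤ c b) ∧
          ∑ b ∈ B, c b • b = v := ⟨{v | _}, fun _ => Iff.rfl⟩
      have hadd : ∀ u ∈ C, ∀ v ∈ C, u + v ∈ C := by
        intro u hu v hv
        rw [hC] at *
        obtain ⟨a, ha, rfl⟩ := hu
        obtain ⟨b, hb, rfl⟩ := hv
        refine ⟨fun x => a x + b x, fun x hx => add_nonneg (ha x hx) (hb x hx), ?_⟩
        simp only [add_smul, Finset.sum_add_distrib]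
      have hsm : ∀ t : ℝ, 0 ≤ t → ∀ u ∈ C, t • u ∈ C := by
        intro t ht u hu
        rw [hC] at *
        obtain ⟨a, ha, rfl⟩ := hu
        refine ⟨fun x => t * a x, fun x hx => mul_nonneg ht (ha x hx), ?_⟩
        simp only [mul_smul, Finset.smul_sum]
      have hsub : ∀ v : V, S v ⊆ B → v ∈ C := by
        intro v hv
        rw [hC]
        refine ⟨fun x => if x ∈ S v then c v x else 0, fun x _ => ?_, ?_⟩
        · dsimp only
          split_ifs with h0
          · exact hc v x h0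
          · exact le_rfl
        · refine Eq.trans (Finset.sum_subset hv fun x _ hx => ?_).symm
            (Eq.trans (Finset.sum_congr rfl fun x hx => ?_) (hsum v))
          · dsimp only
            rw [if_neg hx, zero_smul]
          · dsimp only
            rw [if_pos hx]
      have h0 : (0 : V) ∈ C := by
        rw [hC]
        exact ⟨0, fun _ _ => le_rfl, by simp⟩
      intro v
      rw [← hC, ← bs.sum_repr v]
      refine Finset.sum_induction (s := Finset.univ) _ (fun u => u ∈ C)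
        (fun u v hu hv => hadd u hu v hv) h0 fun i _ => ?_
      rcases le_total 0 (bs.repr v i) with h' | h'
      · exact hsm _ h' _ (hsub _ (hsub1 i))
      · have e : bs.repr v i • bs i = (-bs.repr v i) • -(bs i) := by rw [smul_neg, neg_smul, neg_neg]
        rw [e]
        exact hsm _ (by linarith) _ (hsub _ (hsub2 i))
  -- a minimal one
  obtain ⟨P, hP⟩ : ∃ P : ℕ → Prop, ∀ n, P n ↔ ∃ B : Finset V, B.card = n ∧ ↑B ⊆ H ∧ PSpan B :=
    ⟨_, fun _ => Iff.rfl⟩
  obtain ⟨B0, hB0, hB0'⟩ := h2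
  have hex : ∃ n, P n := ⟨B0.card, (hP _).2 ⟨B0, rfl, hB0, hB0'⟩⟩
  obtain ⟨B, hcard, hB, hBs⟩ := (hP _).1 (Nat.find_spec hex)
  refine ⟨B, hB, hBs, fun B' hB' hs => ?_⟩
  have h3 := Finset.card_lt_card hB'
  rw [hcard] at h3
  exact Nat.find_min hex h3 ((hP _).2 ⟨B', rfl, (Finset.coe_subset.2 hB'.1).trans hB, hs⟩)

/-- A minimal positively spanning set has at most `2 dim V` elements. -/
theorem card_le [FiniteDimensional ℝ V] {B : Finset V} (h : PSpan B)
    (hmin : ∀ B' ⊂ B, ¬ PSpan B') : B.card ≤ 2 * Module.finrank ℝ V := by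
  classical
  obtain ⟨E0, hEB, hspan, hli⟩ := exists_linearIndependent ℝ (B : Set V)
  obtain ⟨E, rfl⟩ : ∃ E : Finset V, (E : Set V) = E0 :=
    ⟨(B.finite_toSet.subset hEB).toFinset, (B.finite_toSet.subset hEB).coe_toFinset⟩
  have hEB : E ⊆ B := Finset.coe_subset.1 hEB
  have htop : ∀ v : V, v ∈ Submodule.span ℝ (E : Set V) := by
    intro v
    rw [hspan]
    obtain ⟨c, -, hsum⟩ := h v
    rw [← hsum]
    exact Submodule.sum_mem _ fun b hb => Submodule.smul_mem _ _ (Submodule.subset_span hb)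
  obtain ⟨c, hc, hsum⟩ := h (-∑ x ∈ E, x)
  obtain ⟨T, hT, d, hd, hliT, hd'⟩ := car B c hc
  have hps : PSpan (E ∪ T) := by
    intro v
    obtain ⟨ρ, hρ⟩ : ∃ ρ : V → ℝ, ∀ x, ρ x = (if x ∈ E then 1 else 0) +
        (if x ∈ T then d x else 0) := ⟨_, fun _ => rfl⟩
    have hρ1 : ∑ x ∈ E ∪ T, ρ x • x = 0 := by
      simp only [hρ, add_smul, Finset.sum_add_distrib, ite_smul, one_smul, zero_smul]
      rw [← Finset.sum_filter, ← Finset.sum_filter, Finset.filter_mem_eq_inter,
        Finset.filter_mem_eq_inter, Finset.inter_eq_right.2 Finset.subset_union_left,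
        Finset.inter_eq_right.2 Finset.subset_union_right, hd', hsum, add_neg_cancel]
    have hρ2 : ∀ x ∈ E ∪ T, 0 < ρ x := by
      intro x hx
      rw [hρ]
      rcases Finset.mem_union.1 hx with h1 | h1
      · rw [if_pos h1]
        split_ifs with h2
        · have := hd x h2
          linarith
        · norm_num
      · rw [if_pos h1]
        have := hd x h1
        split_ifs
        · linarith
        · linarith
    obtain ⟨a, ha⟩ := Submodule.mem_span_finset.1 (htop v)
    obtain ⟨t, -, ht⟩ := large (E ∪ T) (fun x => if x ∈ E then a x else 0) ρ hρ2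
    refine ⟨_, ht, ?_⟩
    simp only [add_smul, Finset.sum_add_distrib, mul_smul, ← Finset.smul_sum, hρ1, smul_zero,
      add_zero, ite_smul, zero_smul]
    rw [← Finset.sum_filter, Finset.filter_mem_eq_inter,
      Finset.inter_eq_right.2 Finset.subset_union_left]
    exact ha.2
  have hB : B = E ∪ T := by
    by_contra hne
    exact hmin (E ∪ T) ⟨Finset.union_subset hEB hT, fun h' => hne
      (Finset.Subset.antisymm h' (Finset.union_subset hEB hT))⟩ hps
  have h1 : E.card ≤ Module.finrank ℝ V := by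
    have h2 : LinearIndependent ℝ (fun x : E => (x : V)) := hli
    have h3 := h2.fintype_card_le_finrank
    rwa [Fintype.card_coe] at h3
  have h2 : T.card ≤ Module.finrank ℝ V := by
    have h2 : LinearIndependent ℝ (fun x : T => (x : V)) := hliT
    have h3 := h2.fintype_card_le_finrank
    rwa [Fintype.card_coe] at h3
  have h3 := Finset.card_union_le E T
  rw [← hB] at h3
  omega

/-- Every `-h` is a positive combination of at most `r` elements of `B`. -/
theorem neg_mem {r : ℕ} {H : Set V} (h : Nice r H) {B : Finset V} (hB : ↑B ⊆ H)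
    (hs : PSpan B) {g : V} (hg : g ∈ H) :
    ∃ T ⊆ B, T.card ≤ r ∧ ∃ d : V → ℝ, g = ∑ x ∈ T, d x • x := by
  classical
  obtain ⟨c, hc, hsum⟩ := hs (-g)
  obtain ⟨T, hT, d, hd, hli, hd'⟩ := car B c hc
  refine ⟨T, hT, ?_, fun x => -d x, ?_⟩
  · have h1 : LinearIndependent ℝ (fun x : T => d x • (x : V)) := by
      have h2 : LinearIndependent ℝ (fun x : T => (x : V)) := hli
      exact h2.units_smul (fun x : T => Units.mk0 (d x) (hd x x.2).ne')
    have h2 := h.circ T (fun x : T => d x • (x : V)) h1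
      (fun x => h.smul _ (hd x x.2) _ (hB (hT x.2))) (by
        rw [Finset.sum_coe_sort T (fun x => d x • x), hd', hsum, neg_neg]
        exact hg)
    rwa [Fintype.card_coe] at h2
  · simp only [neg_smul, Finset.sum_neg_distrib]
    rw [hd', hsum, neg_neg]

/-- Supports of combinations. -/
theorem supp_sum {ι : Type} [Finite ι] (e : V →ₗ[ℝ] (ι → ℝ)) (T : Finset V) (d : V → ℝ) (k : ℕ)
    (hT : ∀ x ∈ T, {i | e x i ≠ 0}.ncard ≤ k) :
    {i | e (∑ x ∈ T, d x • x) i ≠ 0}.ncard ≤ T.card * k := by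
  classical
  induction T using Finset.induction_on with
  | empty =>
    have : {i | e (∑ x ∈ (∅ : Finset V), d x • x) i ≠ 0} = ∅ := by
      ext i
      simp
    rw [this, Set.ncard_empty]
    exact Nat.zero_le _
  | insert y T hy ih =>
    have h1 := ih fun x hx => hT x (Finset.mem_insert_of_mem hx)
    have h2 := hT y (Finset.mem_insert_self y T)
    have hsub : {i | e (∑ x ∈ insert y T, d x • x) i ≠ 0} ⊆
        {i | e y i ≠ 0} ∪ {i | e (∑ x ∈ T, d x • x) i ≠ 0} := by
      intro i hi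
      by_contra hcon
      simp only [Set.mem_union, Set.mem_ofPred_eq, not_or, not_not] at hcon
      apply hi
      rw [Finset.sum_insert hy, map_add, map_smul, Pi.add_apply, Pi.smul_apply, hcon.1, hcon.2,
        smul_zero, add_zero]
    have h3 := (Set.ncard_le_ncard hsub (Set.toFinite _)).trans (Set.ncard_union_le _ _)
    rw [Finset.card_insert_of_notMem hy, Nat.succ_mul]
    omega

section Step

variable {B : Finset V} {J : Finset V} {ψ : V → V →ₗ[ℝ] ℝ}

/-- The complement. -/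
def Wc (J : Finset V) (ψ : V → V →ₗ[ℝ] ℝ) : Submodule ℝ V := ⨅ p ∈ J, LinearMap.ker (ψ p)

theorem mem_Wc (v : V) : v ∈ Wc J ψ ↔ ∀ p ∈ J, ψ p v = 0 := by
  unfold Wc
  simp only [Submodule.mem_iInf, LinearMap.mem_ker]

/-- The projection. -/
theorem exists_pr (h1 : ∀ p ∈ J, ψ p p = 1) (h2 : ∀ p ∈ J, ∀ p' ∈ J, p' ≠ p → ψ p p' = 0) :
    ∃ π : V →ₗ[ℝ] Wc J ψ, ∀ v, ((π v : Wc J ψ) : V) = v - ∑ p ∈ J, ψ p v • p := by
  obtain ⟨f, hf⟩ : ∃ f : V →ₗ[ℝ] V, ∀ v, f v = v - ∑ p ∈ J, ψ p v • p := by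
    refine ⟨LinearMap.id - ∑ p ∈ J, (ψ p).smulRight p, fun v => ?_⟩
    rw [LinearMap.sub_apply, LinearMap.id_apply, LinearMap.sum_apply]
    rfl
  refine ⟨f.codRestrict _ fun v => ?_, fun v => hf v⟩
  rw [mem_Wc]
  intro p hp
  rw [hf, map_sub, map_sum, Finset.sum_eq_single p]
  · rw [map_smul, h1 p hp, smul_eq_mul, mul_one, sub_self]
  · intro p' hp' hne
    rw [map_smul, h2 p hp p' hp' hne, smul_zero]
  · intro hp'
    exact absurd hp hp'

end Step

/-- The contraction. -/
theorem nice_contr {r : ℕ} {H : Set V} (h : Nice (r + 1) H) {B : Finset V} (hB : ↑B ⊆ H)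
    (hs : PSpan B) {J : Finset V} {ψ : V → V →ₗ[ℝ] ℝ} (hJB : J ⊆ B) (h1 : ∀ p ∈ J, ψ p p = 1)
    (h2 : ∀ p ∈ J, ∀ x ∈ B, x ≠ p → ψ p x ≤ 0) (h3 : ∀ p ∈ J, ∀ p' ∈ J, p' ≠ p → ψ p p' = 0)
    (h5 : ∀ ρ, PRel B ρ → (∃ y ∈ B, ρ y ≠ 0) → ∃ p ∈ J, ρ p ≠ 0)
    (π : V →ₗ[ℝ] Wc J ψ) (hπ : ∀ v, ((π v : Wc J ψ) : V) = v - ∑ p ∈ J, ψ p v • p) :
    Nice r {w : Wc J ψ | ∃ t : ℝ, 0 < t ∧ ∃ b ∈ B, w = t • π b} := by
  classical
  have hπJ : ∀ p ∈ J, π p = 0 := by
    intro p hp
    apply Subtype.ext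
    rw [hπ, Finset.sum_eq_single p]
    · rw [h1 p hp, one_smul, sub_self]
      rfl
    · intro p' hp' hne
      rw [h3 p' hp' p hp hne.symm, zero_smul]
    · intro hp'
      exact absurd hp hp'
  have hπW : ∀ w : Wc J ψ, π (w : V) = w := by
    intro w
    apply Subtype.ext
    rw [hπ, Finset.sum_eq_zero, sub_zero]
    intro p hp
    rw [(mem_Wc _).1 w.2 p hp, zero_smul]
  refine ⟨?_, ?_, ?_⟩
  · rintro t ht _ ⟨u, hu, b, hb, rfl⟩
    exact ⟨t * u, mul_pos ht hu, b, hb, by rw [smul_smul]⟩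
  · intro w
    obtain ⟨c, hc, hsum⟩ := hs (w : V)
    refine ⟨B, inferInstance, fun b => c b, fun b => π b, fun b => hc b b.2,
      fun b => ⟨1, one_pos, b, b.2, by rw [one_smul]⟩, ?_⟩
    have h6 := congrArg π hsum
    rw [hπW, map_sum] at h6
    rw [← h6, ← Finset.sum_coe_sort B]
    exact Finset.sum_congr rfl fun b _ => (map_smul π _ _).symm
  · intro ι _ s hli hsH hsum
    rcases isEmpty_or_nonempty ι with hι | hι
    · rw [Fintype.card_eq_zero]
      exact Nat.zero_le _
    choose t ht b hb hsb using hsH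
    obtain ⟨t0, ht0, b0, hb0, hsb0⟩ := hsum
    have hbJ : ∀ i, b i ∉ J := by
      intro i hi
      apply hli.ne_zero i
      rw [hsb, hπJ _ hi, smul_zero]
    have hb0J : b0 ∉ J := by
      intro hi
      rw [hπJ _ hi, smul_zero, neg_eq_zero] at hsb0
      obtain ⟨i⟩ := hι
      have h6 := Fintype.linearIndependent_iff.1 hli (fun _ => 1) (by
        simp only [one_smul]
        exact hsb0) i
      exact one_ne_zero h6
    -- the vector `u` and its coordinates
    obtain ⟨u, hu⟩ : ∃ u : V, u = t0 • b0 + ∑ i, t i • b i := ⟨_, rfl⟩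
    have hπu : π u = 0 := by
      have h6 : ∑ i, s i = ∑ i, π (t i • b i) :=
        Finset.sum_congr rfl fun i _ => by rw [hsb, map_smul]
      rw [hu, map_add, map_smul, ← hsb0, map_sum, ← h6, neg_add_cancel]
    have hu2 : u = ∑ p ∈ J, ψ p u • p := by
      have h6 := hπ u
      rw [hπu] at h6
      exact sub_eq_zero.1 h6.symm
    obtain ⟨μ, hμ⟩ : ∃ μ : V → ℝ, ∀ p, μ p = -ψ p u := ⟨_, fun _ => rfl⟩
    have hμ0 : ∀ p ∈ J, 0 ≤ μ p := by
      intro p hp
      rw [hμ, hu, map_add, map_smul, map_sum, neg_nonneg]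
      have h6 : ψ p b0 ≤ 0 := h2 p hp b0 hb0 (fun h' => hb0J (h' ▸ hp))
      have h7 : ∑ i, ψ p (t i • b i) ≤ 0 := by
        apply Finset.sum_nonpos
        intro i _
        rw [map_smul, smul_eq_mul]
        exact mul_nonpos_of_nonneg_of_nonpos (ht i).le
          (h2 p hp (b i) (hb i) (fun h' => hbJ i (h' ▸ hp)))
      have h8 : t0 • ψ p b0 ≤ 0 := by
        rw [smul_eq_mul]
        exact mul_nonpos_of_nonneg_of_nonpos ht0.le h6
      linarith
    have hrel : t0 • b0 + ∑ i, t i • b i + ∑ p ∈ J, μ p • p = 0 := by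
      rw [← hu]
      simp only [hμ, neg_smul, Finset.sum_neg_distrib]
      rw [← hu2, add_neg_cancel]
    -- as a relation on `B`
    obtain ⟨ρ, hρ⟩ : ∃ ρ : V → ℝ, ∀ x, ρ x = (if x = b0 then t0 else 0) +
        (∑ i, if x = b i then t i else 0) + (if x ∈ J then μ x else 0) := ⟨_, fun _ => rfl⟩
    have hρP : PRel B ρ := by
      refine ⟨?_, fun x _ => ?_⟩
      · unfold Rel
        simp only [hρ, add_smul, Finset.sum_add_distrib, Finset.sum_smul, ite_smul, zero_smul]
        rw [Finset.sum_ite_eq' B b0 (fun x => t0 • x), if_pos hb0, Finset.sum_comm,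
          ← Finset.sum_filter, Finset.filter_mem_eq_inter, Finset.inter_eq_right.2 hJB]
        have h6 : ∑ i, ∑ x ∈ B, (if x = b i then t i • x else 0) = ∑ i, t i • b i := by
          refine Finset.sum_congr rfl fun i _ => ?_
          rw [Finset.sum_ite_eq' B (b i) (fun x => t i • x), if_pos (hb i)]
        rw [h6]
        exact hrel
      · rw [hρ]
        refine add_nonneg (add_nonneg ?_ (Finset.sum_nonneg fun i _ => ?_)) ?_
        · split_ifs
          · exact ht0.le
          · exact le_rfl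
        · split_ifs
          · exact (ht i).le
          · exact le_rfl
        · split_ifs with hx
          · exact hμ0 x hx
          · exact le_rfl
    obtain ⟨p, hp, hρp⟩ := h5 ρ hρP ⟨b0, hb0, by
      rw [hρ, if_pos rfl, if_neg hb0J, add_zero]
      have : 0 ≤ ∑ i, (if b0 = b i then t i else 0) := Finset.sum_nonneg fun i _ => by
        split_ifs
        · exact (ht i).le
        · exact le_rfl
      linarith⟩
    have hμp : 0 < μ p := by
      have e1 : p ≠ b0 := fun h' => hb0J (h' ▸ hp)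
      have e2 : ∀ i, p ≠ b i := fun i h' => hbJ i (h' ▸ hp)
      rw [hρ, if_neg e1, Finset.sum_eq_zero (fun i _ => if_neg (e2 i)), zero_add, zero_add,
        if_pos hp] at hρp
      exact lt_of_le_of_ne (hμ0 p hp) (Ne.symm hρp)
    -- the circuit
    obtain ⟨J', hJ'⟩ : ∃ J' : Finset V, J' = J.filter fun p => 0 < μ p := ⟨_, rfl⟩
    have hJ'J : ∀ p ∈ J', p ∈ J ∧ 0 < μ p := fun p hp => by
      rw [hJ'] at hp
      exact Finset.mem_filter.1 hp
    have hsumJ : ∑ p ∈ J', μ p • p = ∑ p ∈ J, μ p • p := by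
      rw [hJ', Finset.sum_filter]
      refine Finset.sum_congr rfl fun q hq => ?_
      split_ifs with h6
      · rfl
      · rw [le_antisymm (not_lt.1 h6) (hμ0 q hq), zero_smul]
    have hcirc := h.circ (ι ⊕ J') (Sum.elim (fun i => t i • b i) (fun q : J' => μ q • (q : V)))
      (by
        rw [Fintype.linearIndependent_iff]
        intro g hg
        rw [Fintype.sum_sum_type] at hg
        simp only [Sum.elim_inl, Sum.elim_inr] at hg
        have h6 := congrArg π hg
        rw [map_add, map_sum, map_sum, map_zero] at h6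
        have h7 : ∑ q : J', π (g (Sum.inr q) • μ q • (q : V)) = 0 := by
          refine Finset.sum_eq_zero fun q _ => ?_
          rw [map_smul, map_smul, hπJ _ (hJ'J q q.2).1, smul_zero, smul_zero]
        rw [h7, add_zero] at h6
        have h8 := Fintype.linearIndependent_iff.1 hli (fun i => g (Sum.inl i)) (by
          rw [← h6]
          refine Finset.sum_congr rfl fun i _ => ?_
          rw [map_smul, map_smul, hsb])
        rw [Finset.sum_eq_zero (fun i _ => by rw [h8 i, zero_smul]), zero_add] at hg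
        rintro (i | q)
        · exact h8 i
        · have h9 := congrArg (ψ (q : V)) hg
          rw [map_sum, map_zero, Finset.sum_eq_single q] at h9
          · rw [map_smul, map_smul, h1 _ (hJ'J q q.2).1, smul_eq_mul, smul_eq_mul, mul_one] at h9
            exact (mul_eq_zero.1 h9).resolve_right (hJ'J q q.2).2.ne'
          · intro q' _ hne
            rw [map_smul, map_smul, h3 _ (hJ'J q q.2).1 _ (hJ'J q' q'.2).1
              (fun h' => hne (Subtype.ext h')), smul_zero, smul_zero]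
          · intro h'
            exact absurd (Finset.mem_univ _) h')
      (by
        rintro (i | q)
        · exact h.smul _ (ht i) _ (hB (hb i))
        · exact h.smul _ (hJ'J q q.2).2 _ (hB (hJB (hJ'J q q.2).1)))
      (by
        rw [Fintype.sum_sum_type]
        simp only [Sum.elim_inl, Sum.elim_inr]
        rw [Finset.sum_coe_sort J' (fun x => μ x • x), hsumJ]
        have h6 : -(∑ i, t i • b i + ∑ p ∈ J, μ p • p) = t0 • b0 := by
          rw [neg_eq_iff_add_eq_zero, ← hrel]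
          abel
        rw [h6]
        exact h.smul _ ht0 _ (hB hb0))
    rw [Fintype.card_sum, Fintype.card_coe] at hcirc
    have hcard : 0 < J'.card := Finset.card_pos.2 ⟨p, by
      rw [hJ']
      exact Finset.mem_filter.2 ⟨hp, hμp⟩⟩
    omega

/-- The coordinates. -/
theorem exists_coord {B : Finset V} {J : Finset V} {ψ : V → V →ₗ[ℝ] ℝ}
    (h1 : ∀ p ∈ J, ψ p p = 1) (h3 : ∀ p ∈ J, ∀ p' ∈ J, p' ≠ p → ψ p p' = 0)
    (h4 : ∀ x ∈ B, ∀ p ∈ J, ∀ p' ∈ J, ψ p x ≠ 0 → ψ p' x ≠ 0 → p = p')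
    (π : V →ₗ[ℝ] Wc J ψ) (hπ : ∀ v, ((π v : Wc J ψ) : V) = v - ∑ p ∈ J, ψ p v • p)
    {κ : Type} [Fintype κ] (e : Wc J ψ ≃ₗ[ℝ] (κ → ℝ)) (k : ℕ)
    (he : ∀ b ∈ B, {i | e (π b) i ≠ 0}.ncard ≤ k) :
    ∃ (ι : Type) (_ : Fintype ι) (f : V ≃ₗ[ℝ] (ι → ℝ)), ∀ b ∈ B,
      {i | f b i ≠ 0}.ncard ≤ k + 1 := by
  classical
  obtain ⟨L, hL⟩ : ∃ L : V →ₗ[ℝ] (κ ⊕ J → ℝ), ∀ v, L v =
      Sum.elim (e (π v)) (fun p : J => ψ p v) := by
    refine ⟨{ toFun := fun v => Sum.elim (e (π v)) (fun p : J => ψ p v)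
              map_add' := fun u v => ?_
              map_smul' := fun t v => ?_ }, fun v => rfl⟩
    · funext i
      rcases i with i | p
      · simp
      · simp
    · funext i
      rcases i with i | p
      · simp
      · simp
  have hinj : Function.Injective L := by
    rw [← LinearMap.ker_eq_bot, LinearMap.ker_eq_bot']
    intro v hv
    rw [hL] at hv
    have h5 : π v = 0 := by
      apply e.injective
      rw [map_zero]
      funext i
      exact congrFun hv (Sum.inl i)
    have h6 := hπ v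
    rw [h5, Finset.sum_eq_zero] at h6
    · rw [sub_zero] at h6
      exact h6.symm
    · intro p hp
      have h7 : ψ p v = 0 := congrFun hv (Sum.inr ⟨p, hp⟩)
      rw [h7, zero_smul]
  have hsurj : Function.Surjective L := by
    intro f
    obtain ⟨w, hw⟩ := e.surjective (fun i => f (Sum.inl i))
    refine ⟨(w : V) + ∑ p : J, f (Sum.inr p) • (p : V), ?_⟩
    have hψ : ∀ q : J, ψ q ((w : V) + ∑ p : J, f (Sum.inr p) • (p : V)) = f (Sum.inr q) := by
      intro q
      rw [map_add, (mem_Wc _).1 w.2 q q.2, zero_add, map_sum, Finset.sum_eq_single q]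
      · rw [map_smul, h1 q q.2, smul_eq_mul, mul_one]
      · intro q' _ hne
        rw [map_smul, h3 q q.2 q' q'.2 (fun h' => hne (Subtype.ext h')), smul_zero]
      · intro h'
        exact absurd (Finset.mem_univ _) h'
    have hπw : π ((w : V) + ∑ p : J, f (Sum.inr p) • (p : V)) = w := by
      apply Subtype.ext
      rw [hπ, ← Finset.sum_coe_sort J]
      simp only [hψ]
      rw [add_sub_cancel_right]
    rw [hL, hπw, hw]
    funext i
    rcases i with i | p
    · rfl
    · exact hψ p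
  refine ⟨κ ⊕ J, inferInstance, LinearEquiv.ofBijective L ⟨hinj, hsurj⟩, fun b hb => ?_⟩
  have hsub : {i | (LinearEquiv.ofBijective L ⟨hinj, hsurj⟩) b i ≠ 0} ⊆
      (Sum.inl '' {i | e (π b) i ≠ 0}) ∪ (Sum.inr '' {p : J | ψ p b ≠ 0}) := by
    intro i hi
    change L b i ≠ 0 at hi
    rw [hL] at hi
    rcases i with i | p
    · exact Or.inl ⟨i, hi, rfl⟩
    · exact Or.inr ⟨p, hi, rfl⟩
  have hone : {p : J | ψ p b ≠ 0}.ncard ≤ 1 := by
    rw [Set.ncard_le_one_iff (Set.toFinite _)]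
    intro p q hp hq
    exact Subtype.ext (h4 b hb p p.2 q q.2 hp hq)
  refine ((Set.ncard_le_ncard hsub (Set.toFinite _)).trans (Set.ncard_union_le _ _)).trans ?_
  have e1 := Set.ncard_image_le (f := (Sum.inl : κ → κ ⊕ J)) (s := {i | e (π b) i ≠ 0})
    (Set.toFinite _)
  have e2 := Set.ncard_image_le (f := (Sum.inr : J → κ ⊕ J)) (s := {p : J | ψ p b ≠ 0})
    (Set.toFinite _)
  have e3 := he b hb
  omega

/-- MAIN THEOREM, algebraic form: coordinates in which all elements of a positively spanning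
subset `B` have at most `K r + 1` nonzero coordinates (for circuits of at most `r + 2` elements). -/
theorem main_step {r : ℕ}
    (ih : ∀ (W : Type) [AddCommGroup W] [Module ℝ W] [FiniteDimensional ℝ W] (H : Set W),
      Nice r H → ∃ (κ : Type) (_ : Fintype κ) (e : W ≃ₗ[ℝ] (κ → ℝ)), ∀ h ∈ H,
        {i | e h i ≠ 0}.ncard ≤ K r)
    [FiniteDimensional ℝ V] {H : Set V} (h : Nice (r + 1) H) :
    ∃ (B : Finset V) (ι : Type) (_ : Fintype ι) (f : V ≃ₗ[ℝ] (ι → ℝ)), ↑B ⊆ H ∧ PSpan B ∧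
      B.card ≤ 2 * Module.finrank ℝ V ∧ ∀ b ∈ B, {i | f b i ≠ 0}.ncard ≤ K r + 1 := by
  obtain ⟨B, hBH, hBs, hmin⟩ := exists_B h
  obtain ⟨J, ψ, hJB, h1, h2, h3, h4, h5⟩ := exists_pairs hBs hmin
  obtain ⟨π, hπ⟩ := exists_pr h1 h3
  obtain ⟨κ, _, e, he⟩ := ih _ _ (nice_contr h hBH hBs hJB h1 h2 h3 h5 π hπ)
  obtain ⟨ι, hι, f, hf⟩ := exists_coord h1 h3 h4 π hπ e (K r) (fun b hb =>
    he _ ⟨1, one_pos, b, hb, by rw [one_smul]⟩)
  exact ⟨B, ι, hι, f, hBH, hBs, card_le hBs hmin, hf⟩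

theorem main (r : ℕ) : ∀ (V : Type) [AddCommGroup V] [Module ℝ V] [FiniteDimensional ℝ V]
    (H : Set V), Nice r H → ∃ (ι : Type) (_ : Fintype ι) (e : V ≃ₗ[ℝ] (ι → ℝ)), ∀ h ∈ H,
      {i | e h i ≠ 0}.ncard ≤ K r := by
  induction r with
  | zero =>
    intro V _ _ _ H h
    obtain ⟨B, hBH, hBs, hmin⟩ := exists_B h
    refine ⟨Fin (Module.finrank ℝ V), inferInstance, (Module.finBasis ℝ V).equivFun,
      fun g hg => ?_⟩
    obtain ⟨T, -, hT, d, hd⟩ := neg_mem h hBH hBs hg
    have hT0 : T = ∅ := Finset.card_eq_zero.1 (Nat.le_zero.1 hT)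
    rw [hT0, Finset.sum_empty] at hd
    rw [hd]
    simp
  | succ r ih =>
    intro V _ _ _ H h
    obtain ⟨B, ι, hι, f, hBH, hBs, -, hf⟩ := main_step ih h
    refine ⟨ι, hι, f, fun g hg => ?_⟩
    obtain ⟨T, hTB, hT, d, hd⟩ := neg_mem h hBH hBs hg
    rw [hd]
    refine (supp_sum f.toLinearMap T d (K r + 1) (fun x hx => hf x (hTB hx))).trans ?_
    exact Nat.mul_le_mul_right _ hT

end Pool.Agent.Helper57.UC
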