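import Pool.Agent.Helper57.UC.Main

set_option autoImplicit false

/-!
A choice of representations `n = f(n) + (n - f(n))` with both summands in a set `A` with few
representations on average can be guessed neither from few digits of `n` nor by quadratic almost
periodic sequences. The definitions are in `Pool/Agent/Helper57/UC/Defs.lean`.
-/

namespace Pool.Agent.Helper57.UC.Candidate

open Finset Filter Pool.Agent.Helper57.UC

theorem result (b w : ℕ) (hb : 2 ≤ b) (ε δ : ℝ) (hε : 0 < ε) (hδ : 0 < δ) :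
    ∃ c : ℝ, 0 < c ∧ ∃ K₀ : ℕ, ∀ (A D : Set ℕ) (f : ℕ → ℕ), IsChoice A D f →
      (∀ K ≥ K₀, δ * (b : ℝ) ^ K ≤ #(upTo D (b ^ K)) → GuessedLocally b w ε D f K →
        ((b : ℝ) ^ K) ^ (1 + 3 * c) ≤ ∑ n ∈ range (2 * b ^ K), (rep A n : ℝ) ^ 2 ∧
          ∃ n < 2 * b ^ K, ((b : ℝ) ^ K) ^ c ≤ rep A n) ∧
      (∀ X : Set ℕ, X.Infinite → ∀ C : ℝ,
        (∀ x ∈ X, ∑ n ∈ range (2 * x), (rep A n : ℝ) ^ 2 ≤ C * x) →
        {ψ : ℝ | 0 ≤ ψ ∧ ψ < 1 ∧ GuessedQuadratically δ X D f ψ}.Finite) :=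
  main b w hb ε δ hε hδ

end Pool.Agent.Helper57.UC.Candidate
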