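import Pool.Agent.Helper57.UC.M

/-!
# MP_541d70_co: the structure theorem with closed bounds
-/

set_option autoImplicit false

namespace Pool.Agent.Helper57.UC

open Pool.Agent.Helper59.HD Finset

theorem K_sum (r : ℕ) :
    (K r : ℝ) + 1 = r.factorial * ∑ j ∈ range (r + 1), (1 : ℝ) ^ j / j.factorial := by
  induction r with
  | zero => simp [K]
  | succ r ih =>
    have h0 : ((r + 1).factorial : ℝ) ≠ 0 := by positivity
    rw [sum_range_succ, mul_add, one_pow, mul_one_div_cancel h0, Nat.factorial_succ, K]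
    push_cast
    rw [ih]
    ring

theorem K_le (r : ℕ) : (K r : ℝ) + 1 ≤ Real.exp 1 * r.factorial := by
  rw [K_sum, mul_comm]
  exact mul_le_mul_of_nonneg_right (Real.sum_le_exp_of_nonneg zero_le_one _) (by positivity)

theorem closed {n r : ℕ} (hr : 1 ≤ r) {F : Set (EuclideanSpace ℝ (Fin n))} (hc : IsCompact F)
    (hconv : Convex ℝ F) (hint : (interior F).Nonempty) (h : Sz r F) :
    ∃ (e : EuclideanSpace ℝ (Fin n) ≃ₗ[ℝ] (Fin n → ℝ)) (B : Finset (Fin n → ℝ)),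
      (∀ x, (∀ I : Finset (Fin n), (#I : ℝ) + 1 ≤ Real.exp 1 * r.factorial →
        ∃ z ∈ F, ∀ i ∈ I, e z i = e x i) → x ∈ F) ∧
      #B ≤ 2 * n ∧
      (∀ b ∈ B, (#{i | b i ≠ 0} : ℝ) ≤ Real.exp 1 * (r - 1).factorial) ∧
      ∀ x, (∀ T ⊆ B, #T ≤ r → ∃ z ∈ F, ∀ b ∈ T, ∑ i, b i * e z i = ∑ i, b i * e x i) →
        x ∈ F := by
  classical
  obtain ⟨r, rfl⟩ : ∃ s, r = s + 1 := ⟨r - 1, (Nat.sub_add_cancel hr).symm⟩
  obtain ⟨e, B, h0, h1, h2⟩ := uc hc hconv hint h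
  refine ⟨e, B, fun x hx => ?_, h0, fun b hb => ?_, h2⟩
  · refine cyl_of h1 h2 (m := K (r + 1)) le_rfl x (fun I hI => hx I ?_)
    have h3 := K_le (r + 1)
    have h4 : (#I : ℝ) ≤ K (r + 1) := by exact_mod_cast hI
    linarith
  · have h3 := h1 b hb
    rw [Set.ncard_eq_toFinset_card', Set.toFinset_ofPred] at h3
    have h4 := K_le r
    rw [Nat.add_sub_cancel]
    have h5 : (#{i | b i ≠ 0} : ℝ) ≤ K r + 1 := by exact_mod_cast h3
    linarith

-- the same in the space `Fin n → ℝ`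
theorem closed' {n r : ℕ} (hr : 1 ≤ r) {F : Set (Fin n → ℝ)} (hc : IsCompact F)
    (hconv : Convex ℝ F) (hint : (interior F).Nonempty) (h : Sz r F) :
    ∃ (e : (Fin n → ℝ) ≃ₗ[ℝ] (Fin n → ℝ)) (B : Finset (Fin n → ℝ)),
      (∀ x, (∀ I : Finset (Fin n), (#I : ℝ) + 1 ≤ Real.exp 1 * r.factorial →
        ∃ z ∈ F, ∀ i ∈ I, e z i = e x i) → x ∈ F) ∧
      #B ≤ 2 * n ∧
      (∀ b ∈ B, (#{i | b i ≠ 0} : ℝ) ≤ Real.exp 1 * (r - 1).factorial) ∧
      ∀ x, (∀ T ⊆ B, #T ≤ r → ∃ z ∈ F, ∀ b ∈ T, ∑ i, b i * e z i = ∑ i, b i * e x i) →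
        x ∈ F := by
  set L : EuclideanSpace ℝ (Fin n) ≃L[ℝ] (Fin n → ℝ) := EuclideanSpace.equiv (Fin n) ℝ with hL
  have hpre : L ⁻¹' F = L.symm '' F := by
    ext x
    constructor
    · intro hx
      exact ⟨L x, hx, L.symm_apply_apply x⟩
    · rintro ⟨y, hy, rfl⟩
      change L (L.symm y) ∈ F
      rwa [L.apply_symm_apply]
  have hc' : IsCompact (L ⁻¹' F) := by
    rw [hpre]
    exact hc.image L.symm.continuous
  have hconv' : Convex ℝ (L ⁻¹' F) := hconv.linear_preimage L.toLinearEquiv.toLinearMap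
  have hint' : (interior (L ⁻¹' F)).Nonempty := by
    obtain ⟨x, hx⟩ := hint
    refine ⟨L.symm x, mem_interior.2 ⟨L ⁻¹' interior F, fun y hy => interior_subset (s := F) hy,
      isOpen_interior.preimage L.continuous, ?_⟩⟩
    change L (L.symm x) ∈ interior F
    rwa [L.apply_symm_apply]
  have hSz' : Sz r (L ⁻¹' F) := by
    intro s v hv
    obtain ⟨x, hx⟩ := h s (fun j => L (v j)) (fun J hJ => by
      obtain ⟨x, hx⟩ := hv J hJ
      refine ⟨L x, fun j hj => ?_⟩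
      have h1 := hx j hj
      change L (x - v j) ∈ F at h1
      rwa [map_sub] at h1)
    refine ⟨L.symm x, fun j => ?_⟩
    change L (L.symm x - v j) ∈ F
    rw [map_sub, L.apply_symm_apply]
    exact hx j
  obtain ⟨e, B, h1, h2, h3, h4⟩ := closed hr hc' hconv' hint' hSz'
  refine ⟨L.symm.toLinearEquiv.trans e, B, fun x hx => ?_, h2, h3, fun x hx => ?_⟩
  · have h5 := h1 (L.symm x) (fun I hI => by
      obtain ⟨z, hz, hzI⟩ := hx I hI
      refine ⟨L.symm z, ?_, fun i hi => hzI i hi⟩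
      change L (L.symm z) ∈ F
      rwa [L.apply_symm_apply])
    change L (L.symm x) ∈ F at h5
    rwa [L.apply_symm_apply] at h5
  · have h5 := h4 (L.symm x) (fun T hT hT' => by
      obtain ⟨z, hz, hzT⟩ := hx T hT hT'
      refine ⟨L.symm z, ?_, fun b hb => hzT b hb⟩
      change L (L.symm z) ∈ F
      rwa [L.apply_symm_apply])
    change L (L.symm x) ∈ F at h5
    rwa [L.apply_symm_apply] at h5

end Pool.Agent.Helper57.UC
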