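import Mathlib

/-!
# MP_541d70_co: the numbers `K r`
-/

set_option autoImplicit false

namespace Pool.Agent.Helper57.UC

/-- `K 0 = 0`, `K (r + 1) = (r + 1) (K r + 1)`, that is `0, 1, 4, 15, 64, ...`. -/
def K : ℕ → ℕ
  | 0 => 0
  | r + 1 => (r + 1) * (K r + 1)

end Pool.Agent.Helper57.UC
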