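import Pool.Agent.Helper57.UC.B
import Pool.Agent.Helper59.HD.Defs

/-!
# Smooth normals of a convex body and property `Sz(r)`

The lemmas on `Nrm` are the ones of helper59 for symmetric bodies, without the symmetry.
-/

set_option autoImplicit false

open scoped RealInnerProductSpace Topology

namespace Pool.Agent.Helper57.UC

open Pool.Agent.Helper59.HD (Sz)

variable {X : Type} [NormedAddCommGroup X] [InnerProductSpace ℝ X]

/-- Smooth normals: derivatives of the gauge at points of differentiability. -/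
def Nrm (F : Set X) : Set X :=
  {g | ∃ y, gauge F y = 1 ∧ ∃ L : X →L[ℝ] ℝ, HasFDerivAt (gauge F) L y ∧ ∀ z, L z = ⟪g, z⟫}

/-- A derivative of the gauge at a point of positive gauge is a smooth normal. -/
theorem nrm_of (F : Set X) (g y : X) (hy : 0 < gauge F y) (L : X →L[ℝ] ℝ)
    (hL : HasFDerivAt (gauge F) L y) (hg : ∀ z, L z = ⟪g, z⟫) : g ∈ Nrm F := by
  set t : ℝ := gauge F y with ht
  refine ⟨t⁻¹ • y, ?_, L, ?_, hg⟩
  · rw [gauge_smul_of_nonneg (inv_nonneg.2 hy.le), smul_eq_mul, ← ht, inv_mul_cancel₀ hy.ne']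
  · have h1 : HasFDerivAt (fun z : X => t • z) (t • ContinuousLinearMap.id ℝ X) (t⁻¹ • y) :=
      (hasFDerivAt_id (t⁻¹ • y)).const_smul t
    have h2 : HasFDerivAt (gauge F) L (t • (t⁻¹ • y)) := by
      rw [smul_smul, mul_inv_cancel₀ hy.ne', one_smul]
      exact hL
    have h3 := (h2.comp (t⁻¹ • y) h1).const_smul t⁻¹
    have e1 : (t⁻¹ • (gauge F ∘ fun z : X => t • z)) = gauge F := by
      ext z
      simp only [Pi.smul_apply, Function.comp_apply, smul_eq_mul]
      rw [gauge_smul_of_nonneg hy.le, smul_eq_mul, ← mul_assoc, inv_mul_cancel₀ hy.ne', one_mul]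
    have e2 : t⁻¹ • (L.comp (t • ContinuousLinearMap.id ℝ X)) = L := by
      ext z
      simp only [smul_apply, ContinuousLinearMap.comp_apply,
        ContinuousLinearMap.id_apply, map_smul, smul_eq_mul]
      rw [← mul_assoc, inv_mul_cancel₀ hy.ne', one_mul]
    rw [e1, e2] at h3
    exact h3

theorem dir_le (F : Set X) (g y : X) (L : X →L[ℝ] ℝ) (hL : HasFDerivAt (gauge F) L y)
    (hg : ∀ z, L z = ⟪g, z⟫) (w : X) (c : ℝ)
    (h : ∀ᶠ t : ℝ in 𝓝[>] 0, gauge F (y + t • w) ≤ gauge F y + t * c) : ⟪g, w⟫ ≤ c := by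
  have h1 := (hL.hasLineDerivAt w).tendsto_slope_zero_right
  rw [hg w] at h1
  apply le_of_tendsto h1
  filter_upwards [h, self_mem_nhdsWithin] with t ht ht0
  have ht0 : 0 < t := ht0
  rw [smul_eq_mul, inv_mul_le_iff₀ ht0]
  linarith

theorem dir_lt (F : Set X) (g y : X) (L : X →L[ℝ] ℝ) (hL : HasFDerivAt (gauge F) L y)
    (hg : ∀ z, L z = ⟪g, z⟫) (w : X) (hw : ⟪g, w⟫ < 0) :
    ∀ᶠ t : ℝ in 𝓝[>] 0, gauge F (y + t • w) < gauge F y := by
  have h1 := (hL.hasLineDerivAt w).tendsto_slope_zero_right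
  rw [hg w] at h1
  filter_upwards [h1.eventually (gt_mem_nhds hw), self_mem_nhdsWithin] with t ht ht0
  have ht0 : 0 < t := ht0
  rw [smul_eq_mul, inv_mul_lt_iff₀ ht0, mul_zero] at ht
  linarith

/-- The standing hypotheses: a convex body with the origin in its interior. -/
structure Body (F : Set X) : Prop where
  compact : IsCompact F
  convex : Convex ℝ F
  nhds : F ∈ 𝓝 (0 : X)

theorem Body.mem_iff {F : Set X} (h : Body F) (x : X) : x ∈ F ↔ gauge F x ≤ 1 := by
  rw [gauge_le_one_iff_mem_closure h.convex h.nhds, h.compact.isClosed.closure_eq]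

theorem Body.add_le {F : Set X} (h : Body F) (x y : X) :
    gauge F (x + y) ≤ gauge F x + gauge F y :=
  gauge_add_le h.convex (absorbent_nhds_zero h.nhds) x y

theorem nrm_le {F : Set X} (h : Body F) {g : X} (hg : g ∈ Nrm F) (z : X) :
    ⟪g, z⟫ ≤ gauge F z := by
  obtain ⟨y, _, L, hL, hLg⟩ := hg
  apply dir_le F g y L hL hLg z
  filter_upwards [self_mem_nhdsWithin] with t ht0
  have ht0 : 0 < t := ht0
  refine (h.add_le y (t • z)).trans ?_
  rw [gauge_smul_of_nonneg ht0.le, smul_eq_mul]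

theorem nrm_euler {F : Set X} (g y : X) (hy : gauge F y = 1)
    (L : X →L[ℝ] ℝ) (hL : HasFDerivAt (gauge F) L y) (hLg : ∀ z, L z = ⟪g, z⟫) :
    1 ≤ ⟪g, y⟫ := by
  have h1 : ⟪g, -y⟫ ≤ -1 := by
    apply dir_le F g y L hL hLg (-y)
    have h2 : ∀ᶠ t : ℝ in 𝓝[>] 0, t < 1 :=
      (gt_mem_nhds (zero_lt_one : (0 : ℝ) < 1)).filter_mono nhdsWithin_le_nhds
    filter_upwards [h2] with t ht
    have e : y + t • (-y) = (1 - t) • y := by
      rw [sub_smul, one_smul, smul_neg, sub_eq_add_neg]
    rw [e, gauge_smul_of_nonneg (by linarith), smul_eq_mul, hy]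
    linarith
  rw [inner_neg_right] at h1
  linarith

variable [FiniteDimensional ℝ X]

/-- The smooth normals determine the body. -/
theorem exists_nrm {F : Set X} (h : Body F) (x : X) (hx : 1 < gauge F x) :
    ∃ g ∈ Nrm F, 1 < ⟪g, x⟫ := by
  borelize X
  obtain ⟨K, hK⟩ := h.convex.lipschitz_gauge h.nhds
  have hd : Dense {y : X | DifferentiableAt ℝ (gauge F) y} :=
    MeasureTheory.Measure.dense_of_ae (μ := MeasureTheory.Measure.addHaar)
      hK.ae_differentiableAt
  have hc : Continuous (fun y => gauge F y - gauge F (y - x)) :=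
    hK.continuous.sub (hK.continuous.comp (continuous_id.sub continuous_const))
  have ho : IsOpen {y | 1 < gauge F y - gauge F (y - x)} := isOpen_lt continuous_const hc
  obtain ⟨y, hy1, hy2⟩ := hd.exists_mem_open ho ⟨x, by
    show 1 < gauge F x - gauge F (x - x)
    rw [sub_self, gauge_zero, sub_zero]
    exact hx⟩
  have hy2 : 1 < gauge F y - gauge F (y - x) := hy2
  have hpos : 0 < gauge F y := by
    have := gauge_nonneg (s := F) (y - x)
    linarith
  set g : X := (InnerProductSpace.toDual ℝ X).symm (fderiv ℝ (gauge F) y) with hg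
  have hgz : ∀ z, fderiv ℝ (gauge F) y z = ⟪g, z⟫ := by
    intro z
    rw [hg, InnerProductSpace.toDual_symm_apply]
  have hgN : g ∈ Nrm F := nrm_of F g y hpos _ hy1.hasFDerivAt hgz
  refine ⟨g, hgN, ?_⟩
  -- Euler at `y`
  have h1 : ⟪g, -y⟫ ≤ -gauge F y := by
    apply dir_le F g y _ hy1.hasFDerivAt hgz (-y)
    have h2 : ∀ᶠ t : ℝ in 𝓝[>] 0, t < 1 :=
      (gt_mem_nhds (zero_lt_one : (0 : ℝ) < 1)).filter_mono nhdsWithin_le_nhds
    filter_upwards [h2] with t ht
    have e : y + t • (-y) = (1 - t) • y := by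
      rw [sub_smul, one_smul, smul_neg, sub_eq_add_neg]
    rw [e, gauge_smul_of_nonneg (by linarith), smul_eq_mul]
    linarith
  have h3 := nrm_le h hgN (y - x)
  rw [inner_neg_right] at h1
  rw [inner_sub_right] at h3
  linarith

/-- In every direction some smooth normal is positive. -/
theorem exists_nrm_pos {F : Set X} (h : Body F) (x : X) (hx : x ≠ 0) : ∃ g ∈ Nrm F, 0 < ⟪g, x⟫ := by
  obtain ⟨R, hR⟩ := h.compact.isBounded.subset_closedBall 0
  obtain ⟨t, ht0, ht⟩ : ∃ t : ℝ, 0 < t ∧ t • x ∉ F := by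
    have hxn : 0 < ‖x‖ := norm_pos_iff.2 hx
    refine ⟨(|R| + 1) / ‖x‖, by positivity, fun hF => ?_⟩
    have h1 := hR hF
    rw [Metric.mem_closedBall, dist_zero_right, norm_smul, Real.norm_eq_abs, abs_div,
      abs_norm, div_mul_cancel₀ _ hxn.ne'] at h1
    have h2 := le_abs_self R
    have h3 : |(|R| + 1)| = |R| + 1 := abs_of_nonneg (by positivity)
    rw [h3] at h1
    linarith
  rw [h.mem_iff, not_le] at ht
  obtain ⟨g, hg, h1⟩ := exists_nrm h (t • x) ht
  refine ⟨g, hg, ?_⟩
  rw [inner_smul_right] at h1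
  by_contra hcon
  push Not at hcon
  nlinarith

/-- The origin is an interior point of the convex hull of the smooth normals. -/
theorem zero_mem {F : Set X} (h : Body F) (hX : ∃ x : X, x ≠ 0) :
    (0 : X) ∈ interior (convexHull ℝ (Nrm F)) := by
  obtain ⟨x1, hx1⟩ := hX
  obtain ⟨g1, hg1, -⟩ := exists_nrm_pos h x1 hx1
  have hne : (Nrm F).Nonempty := ⟨g1, hg1⟩
  have hcv : Convex ℝ (convexHull ℝ (Nrm F)) := convex_convexHull ℝ _
  have hint : (interior (convexHull ℝ (Nrm F))).Nonempty := by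
    rw [hcv.interior_nonempty_iff_affineSpan_eq_top, affineSpan_convexHull,
      AffineSubspace.affineSpan_eq_top_iff_vectorSpan_eq_top_of_nonempty ℝ X X hne]
    by_contra hcon
    have h1 : (vectorSpan ℝ (Nrm F))ᗮ ≠ ⊥ := fun h' =>
      hcon ((Submodule.orthogonal_eq_bot_iff).1 h')
    obtain ⟨x, hx, hx0⟩ := Submodule.exists_mem_ne_zero_of_ne_bot h1
    have h2 : ∀ g ∈ Nrm F, ⟪g, x⟫ = ⟪g1, x⟫ := by
      intro g hg
      have h3 := (Submodule.mem_orthogonal _ _).1 hx (g -ᵥ g1)
        (vsub_mem_vectorSpan ℝ hg hg1)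
      rw [vsub_eq_sub, inner_sub_left] at h3
      linarith
    rcases le_total ⟪g1, x⟫ 0 with h3 | h3
    · obtain ⟨g, hg, h4⟩ := exists_nrm_pos h x hx0
      rw [h2 g hg] at h4
      linarith
    · obtain ⟨g, hg, h4⟩ := exists_nrm_pos h (-x) (neg_ne_zero.2 hx0)
      rw [inner_neg_right, h2 g hg] at h4
      linarith
  by_contra hcon
  obtain ⟨f, hf⟩ := geometric_hahn_banach_open_point hcv.interior isOpen_interior hcon
  obtain ⟨x, hx⟩ : ∃ x : X, ∀ y, f y = ⟪x, y⟫ :=
    ⟨(InnerProductSpace.toDual ℝ X).symm f, fun y => by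
      rw [InnerProductSpace.toDual_symm_apply]⟩
  have hx0 : x ≠ 0 := by
    rintro rfl
    obtain ⟨a, ha⟩ := hint
    have := hf a ha
    rw [hx, hx, inner_zero_left, inner_zero_left] at this
    exact lt_irrefl _ this
  obtain ⟨g, hg, h1⟩ := exists_nrm_pos h x hx0
  have h2 : g ∈ closure (interior (convexHull ℝ (Nrm F))) := by
    rw [hcv.closure_interior_eq_closure_of_nonempty_interior hint]
    exact subset_closure (subset_convexHull ℝ _ hg)
  have h3 : f g ≤ 0 := by
    have h4 : closure (interior (convexHull ℝ (Nrm F))) ⊆ {y | f y ≤ 0} := by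
      apply closure_minimal
      · intro a ha
        have := hf a ha
        rw [map_zero] at this
        exact this.le
      · exact isClosed_le f.continuous continuous_const
    exact h4 h2
  rw [hx, real_inner_comm] at h3
  linarith

/-- Prescribing the inner products with linearly independent vectors. -/
theorem prescribe {ι : Type} (v : ι → X) (hv : LinearIndependent ℝ v) (c : ι → ℝ) :
    ∃ w : X, ∀ i, ⟪v i, w⟫ = c i := by
  obtain ⟨φ, hφ⟩ := LinearMap.exists_extend ((Module.Basis.span hv).constr ℝ c)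
  refine ⟨(InnerProductSpace.toDual ℝ X).symm φ.toContinuousLinearMap, fun i => ?_⟩
  rw [real_inner_comm, InnerProductSpace.toDual_symm_apply]
  change φ (v i) = c i
  have h1 : φ (v i) = (φ ∘ₗ (Submodule.span ℝ (Set.range v)).subtype)
      (Module.Basis.span hv i) := by
    simp [Module.Basis.span_apply]
  rw [h1, hφ, Module.Basis.constr_basis]

/-- The positive multiples of the smooth normals. -/
def Hc (F : Set X) : Set X := {h | ∃ t : ℝ, 0 < t ∧ ∃ g ∈ Nrm F, h = t • g}

/-- Circuits of smooth normals of a body with `Sz(r)` have at most `r + 1` elements. -/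
theorem circ_le {F : Set X} (h : Body F) {r : ℕ} (hSz : Sz r F) (ι : Type) [Fintype ι]
    (s : ι → X) (hli : LinearIndependent ℝ s) (hs : ∀ i, s i ∈ Hc F) (hsum : -(∑ i, s i) ∈ Hc F) :
    Fintype.card ι ≤ r := by
  classical
  by_contra hlt
  push Not at hlt
  choose t ht g hg hst using hs
  obtain ⟨t0, ht0, g0, hg0, hst0⟩ := hsum
  obtain ⟨f, hf0, hf1⟩ : ∃ f : Option ι → X, f none = g0 ∧ ∀ i, f (some i) = g i :=
    ⟨fun o => o.elim g0 g, rfl, fun _ => rfl⟩
  have hfN : ∀ o, f o ∈ Nrm F := by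
    rintro (_ | i)
    · rw [hf0]
      exact hg0
    · rw [hf1]
      exact hg i
  choose y hy L hL hLg using hfN
  have hEuler : ∀ i, 1 ≤ ⟪f i, y i⟫ := fun i => nrm_euler (f i) (y i) (hy i) (L i) (hL i) (hLg i)
  -- the vectors `w o`
  have hw : ∀ o0 : Option ι, ∃ w : X, ∀ o, o ≠ o0 → ⟪f o, w⟫ < 0 := by
    have hpos : ∀ (i : ι) (w : X) (c : ℝ), ⟪s i, w⟫ = c → c < 0 → ⟪f (some i), w⟫ < 0 := by
      intro i w c h1 h2
      rw [hst, inner_smul_left] at h1
      simp only [conj_trivial] at h1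
      rw [hf1]
      have := ht i
      by_contra hcon
      push Not at hcon
      nlinarith
    rintro (_ | i0)
    · obtain ⟨w, hw⟩ := prescribe s hli (fun _ => -1)
      refine ⟨w, ?_⟩
      rintro (_ | i) ho
      · exact absurd rfl ho
      · exact hpos i w (-1) (hw i) (by norm_num)
    · obtain ⟨w, hw⟩ := prescribe s hli (fun i => if i = i0 then (Fintype.card ι : ℝ) else -1)
      refine ⟨w, ?_⟩
      rintro (_ | i) ho
      · have h1 : ⟪-(∑ i, s i), w⟫ = -1 := by
          rw [inner_neg_left, sum_inner]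
          simp only [hw]
          rw [← Finset.add_sum_erase _ _ (Finset.mem_univ i0), if_pos rfl,
            Finset.sum_congr rfl (g := fun _ => (-1 : ℝ)) (fun i hi => by
              rw [if_neg (Finset.ne_of_mem_erase hi)]), Finset.sum_const,
            Finset.card_erase_of_mem (Finset.mem_univ i0), Finset.card_univ, nsmul_eq_mul,
            Nat.cast_sub (Fintype.card_pos_iff.2 ⟨i0⟩)]
          push_cast
          ring
        rw [hst0, inner_smul_left] at h1
        simp only [conj_trivial] at h1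
        rw [hf0]
        by_contra hcon
        push Not at hcon
        nlinarith
      · have hne : i ≠ i0 := fun h' => ho (by rw [h'])
        exact hpos i w (-1) (by rw [hw, if_neg hne]) (by norm_num)
  choose w hw using hw
  -- a common small parameter
  have hev : ∀ᶠ s : ℝ in 𝓝[>] 0, ∀ i0 i : Option ι, i ≠ i0 → gauge F (y i + s • w i0) < 1 := by
    rw [Filter.eventually_all]
    intro i0
    rw [Filter.eventually_all]
    intro i
    by_cases hi : i ≠ i0
    · filter_upwards [dir_lt F (f i) (y i) (L i) (hL i) (hLg i) (w i0) (hw i0 i hi)] with s hs _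
      rw [hy i] at hs
      exact hs
    · exact Filter.Eventually.of_forall (fun s hi' => absurd hi' hi)
  obtain ⟨s', hs', -⟩ := (hev.and self_mem_nhdsWithin).exists
  have hcont := (continuous_gauge h.convex h.nhds)
  have hev2 : ∀ᶠ ε : ℝ in 𝓝[>] 0, ∀ i0 i : Option ι, i ≠ i0 →
      gauge F ((1 + ε) • y i + s' • w i0) < 1 := by
    rw [Filter.eventually_all]
    intro i0
    rw [Filter.eventually_all]
    intro i
    by_cases hi : i ≠ i0
    · have hc : Continuous (fun ε : ℝ => gauge F ((1 + ε) • y i + s' • w i0)) :=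
        hcont.comp (by fun_prop)
      have h0 : gauge F ((1 + (0 : ℝ)) • y i + s' • w i0) < 1 := by
        rw [add_zero, one_smul]
        exact hs' i0 i hi
      have h1 := (hc.tendsto 0).eventually (gt_mem_nhds h0)
      filter_upwards [h1.filter_mono nhdsWithin_le_nhds] with ε hε _
      exact hε
    · exact Filter.Eventually.of_forall (fun s hi' => absurd hi' hi)
  obtain ⟨ε, hε, hε0⟩ := (hev2.and self_mem_nhdsWithin).exists
  have hε0 : 0 < ε := hε0
  obtain ⟨x, hx⟩ := hSz.fin (fun i : Option ι => -((1 + ε) • y i)) (by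
    intro J hJ
    have hex : ∃ i0, i0 ∉ J := by
      by_contra hcon
      push Not at hcon
      have h1 : J = Finset.univ := Finset.eq_univ_iff_forall.2 hcon
      rw [h1, Finset.card_univ, Fintype.card_option] at hJ
      omega
    obtain ⟨i0, hi0⟩ := hex
    refine ⟨s' • w i0, fun i hi => ?_⟩
    rw [h.mem_iff, sub_neg_eq_add, add_comm]
    exact (hε i0 i (fun h' => hi0 (h' ▸ hi))).le)
  -- contradiction
  have hneg : ∀ i : Option ι, ⟪f i, x⟫ ≤ -ε := by
    intro i
    have h1 := hx i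
    rw [h.mem_iff, sub_neg_eq_add] at h1
    have h2 := nrm_le h (⟨y i, hy i, L i, hL i, hLg i⟩ : f i ∈ Nrm F) (x + (1 + ε) • y i)
    rw [inner_add_right, inner_smul_right] at h2
    have h3 := hEuler i
    nlinarith
  have hz : t0 * ⟪f none, x⟫ + ∑ i, t i * ⟪f (some i), x⟫ = 0 := by
    have h1 : ⟪t0 • g0 + ∑ i, s i, x⟫ = 0 := by
      rw [← hst0, neg_add_cancel, inner_zero_left]
    rw [inner_add_left, sum_inner, inner_smul_left] at h1
    simp only [conj_trivial] at h1
    rw [hf0, ← h1]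
    congr 1
    refine Finset.sum_congr rfl fun i _ => ?_
    rw [hf1, hst i, inner_smul_left]
    simp only [conj_trivial]
  have h1 : ∑ i, t i * ⟪f (some i), x⟫ ≤ 0 := Finset.sum_nonpos fun i _ => by
    have := hneg (some i)
    have := ht i
    nlinarith
  have h2 := hneg none
  nlinarith

/-- The cone of smooth normals. -/
theorem nice {F : Set X} (h : Body F) {r : ℕ} (hSz : Sz r F) : Nice r (Hc F) := by
  refine ⟨?_, ?_, fun ι _ s hli hs hsum => circ_le h hSz ι s hli hs hsum⟩
  · rintro t ht _ ⟨u, hu, g, hg, rfl⟩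
    exact ⟨t * u, mul_pos ht hu, g, hg, by rw [smul_smul]⟩
  · intro v
    by_cases hv : v = 0
    · exact ⟨Empty, inferInstance, fun _ => 0, fun _ => 0, fun _ => le_rfl, fun i => i.elim, by
        simp [hv]⟩
    · have h0 := mem_interior_iff_mem_nhds.1 (zero_mem h ⟨v, hv⟩)
      have h1 : Filter.Tendsto (fun ε : ℝ => ε • v) (𝓝[>] 0) (𝓝 0) := by
        have h2 : Continuous fun ε : ℝ => ε • v := by fun_prop
        have h3 := (h2.tendsto 0).mono_left (nhdsWithin_le_nhds (s := Set.Ioi 0))
        rwa [zero_smul] at h3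
      obtain ⟨ε, hε, hε0⟩ := ((h1.eventually h0).and self_mem_nhdsWithin).exists
      have hε0 : 0 < ε := hε0
      have hε : ε • v ∈ convexHull ℝ (Nrm F) := hε
      rw [mem_convexHull_iff_exists_fintype] at hε
      obtain ⟨ι, _, c, z, hc, -, hz, hsum⟩ := hε
      refine ⟨ι, inferInstance, fun i => ε⁻¹ * c i, z, fun i =>
        mul_nonneg (inv_nonneg.2 hε0.le) (hc i), fun i => ⟨1, one_pos, z i, hz i, by
          rw [one_smul]⟩, ?_⟩
      simp only [mul_smul]
      rw [← Finset.smul_sum, hsum, smul_smul, inv_mul_cancel₀ hε0.ne', one_smul]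

end Pool.Agent.Helper57.UC
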