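import Pool.Agent.Helper57.UC.G

/-!
# Convex bodies with property `Sz(r)` are intersections of cylinders over projections of bounded
dimension
-/

set_option autoImplicit false

open scoped RealInnerProductSpace Topology

namespace Pool.Agent.Helper57.UC

open Pool.Agent.Helper59.HD (Sz)

/-- Linear forms on `ℝ^n` given by vectors, in the coordinates of a basis of the dual space. -/
theorem exists_dual {n : ℕ} {ι : Type} [Fintype ι]
    (f : EuclideanSpace ℝ (Fin n) ≃ₗ[ℝ] (ι → ℝ)) :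
    ∃ (σ : Fin n ≃ ι) (e : EuclideanSpace ℝ (Fin n) ≃ₗ[ℝ] (Fin n → ℝ)), ∀ v x,
      ⟪v, x⟫ = ∑ i, f v (σ i) * e x i := by
  classical
  have hcard : Fintype.card ι = n := by
    have h1 := f.finrank_eq
    rw [finrank_euclideanSpace_fin, Module.finrank_fintype_fun_eq_card] at h1
    exact h1.symm
  obtain ⟨σ, -⟩ : ∃ σ : Fin n ≃ ι, True := ⟨(Fintype.equivFinOfCardEq hcard).symm, trivial⟩
  obtain ⟨b, hb⟩ : ∃ b : Fin n → EuclideanSpace ℝ (Fin n), ∀ i, b i = f.symm (Pi.single (σ i) 1) :=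
    ⟨_, fun _ => rfl⟩
  have hexp : ∀ v, v = ∑ i, f v (σ i) • b i := by
    intro v
    apply f.injective
    rw [map_sum]
    funext j
    rw [Finset.sum_apply, Finset.sum_eq_single (σ.symm j)]
    · rw [map_smul, hb, LinearEquiv.apply_symm_apply, Pi.smul_apply, Equiv.apply_symm_apply,
        Pi.single_eq_same, smul_eq_mul, mul_one]
    · intro i _ hi
      rw [map_smul, hb, LinearEquiv.apply_symm_apply, Pi.smul_apply, Pi.single_eq_of_ne, smul_zero]
      rintro rfl
      exact hi (σ.symm_apply_apply i).symm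
    · intro h
      exact absurd (Finset.mem_univ _) h
  obtain ⟨L, hL⟩ : ∃ L : EuclideanSpace ℝ (Fin n) →ₗ[ℝ] (Fin n → ℝ), ∀ x i, L x i = ⟪b i, x⟫ :=
    ⟨{ toFun := fun x i => ⟪b i, x⟫
       map_add' := fun x y => by
         ext i
         simp [inner_add_right]
       map_smul' := fun t x => by
         ext i
         simp [inner_smul_right] }, fun _ _ => rfl⟩
  have hval : ∀ v x, ⟪v, x⟫ = ∑ i, f v (σ i) * L x i := by
    intro v x
    conv_lhs => rw [hexp v]
    rw [sum_inner]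
    refine Finset.sum_congr rfl fun i _ => ?_
    rw [inner_smul_left, hL]
    simp only [conj_trivial]
  have hinj : Function.Injective L := by
    rw [← LinearMap.ker_eq_bot, LinearMap.ker_eq_bot']
    intro x hx
    have h1 := hval x x
    rw [Finset.sum_eq_zero (fun i _ => by rw [hx, Pi.zero_apply, mul_zero])] at h1
    exact inner_self_eq_zero.1 h1
  exact ⟨σ, L.linearEquivOfInjective hinj (by
    rw [finrank_euclideanSpace_fin, Module.finrank_fin_fun]), hval⟩

/-- The theorem for bodies with the origin in the interior. -/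
theorem uc_body {n r : ℕ} {F : Set (EuclideanSpace ℝ (Fin n))} (h : Body F) (hSz : Sz (r + 1) F) :
    ∃ (e : EuclideanSpace ℝ (Fin n) ≃ₗ[ℝ] (Fin n → ℝ)) (B : Finset (Fin n → ℝ)),
      B.card ≤ 2 * n ∧ (∀ b ∈ B, {i | b i ≠ 0}.ncard ≤ K r + 1) ∧
      ∀ x, (∀ T ⊆ B, T.card ≤ r + 1 → ∃ z ∈ F, ∀ b ∈ T, ∑ i, b i * e z i = ∑ i, b i * e x i) →
        x ∈ F := by
  classical
  have hn := nice h hSz
  obtain ⟨B, ι, hι, f, hBH, hBs, hcard, hf⟩ := main_step (main r) hn
  rw [finrank_euclideanSpace_fin] at hcard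
  obtain ⟨σ, e, he⟩ := exists_dual f
  obtain ⟨φ, hφ⟩ : ∃ φ : EuclideanSpace ℝ (Fin n) → Fin n → ℝ, ∀ v, φ v = fun i => f v (σ i) :=
    ⟨_, fun _ => rfl⟩
  refine ⟨e, B.image φ, Finset.card_image_le.trans hcard, ?_, ?_⟩
  · intro b hb
    obtain ⟨v, hv, rfl⟩ := Finset.mem_image.1 hb
    refine le_trans ?_ (hf v hv)
    have h1 : {i | φ v i ≠ 0} = σ ⁻¹' {j | f v j ≠ 0} := by
      ext i
      simp [hφ]
    rw [h1, Set.ncard_preimage_of_injective_subset_range σ.injective (fun j _ =>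
      ⟨σ.symm j, σ.apply_symm_apply j⟩)]
  · intro x hx
    rw [h.mem_iff]
    by_contra hcon
    push Not at hcon
    obtain ⟨g, hg, hg1⟩ := exists_nrm h x hcon
    obtain ⟨T, hTB, hT, d, hd⟩ := neg_mem hn hBH hBs (g := g) ⟨1, one_pos, g, hg, by rw [one_smul]⟩
    obtain ⟨z, hz, hzT⟩ := hx (T.image φ) (Finset.image_subset_image hTB)
      (Finset.card_image_le.trans hT)
    have h1 : ∀ v ∈ T, ⟪v, z⟫ = ⟪v, x⟫ := by
      intro v hv
      have h2 := hzT (φ v) (Finset.mem_image_of_mem φ hv)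
      rw [he, he]
      simp only [hφ] at h2
      exact h2
    have h2 : ⟪g, z⟫ = ⟪g, x⟫ := by
      rw [hd, sum_inner, sum_inner]
      refine Finset.sum_congr rfl fun v hv => ?_
      rw [inner_smul_left, inner_smul_left, h1 v hv]
    have h3 := nrm_le h hg z
    have h4 := (h.mem_iff z).1 hz
    linarith

/-- Recentring. -/
theorem body_of {n : ℕ} {F : Set (EuclideanSpace ℝ (Fin n))} (hc : IsCompact F)
    (hconv : Convex ℝ F) {c : EuclideanSpace ℝ (Fin n)} (hint : c ∈ interior F) :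
    Body {x | x + c ∈ F} := by
  refine ⟨(Homeomorph.addRight c).isCompact_preimage.2 hc, ?_, ?_⟩
  · intro x hx y hy a b ha hb hab
    have h1 := hconv hx hy ha hb hab
    change a • x + b • y + c ∈ F
    have e : a • x + b • y + c = a • (x + c) + b • (y + c) := by
      have : c = a • c + b • c := by rw [← add_smul, hab, one_smul]
      conv_lhs => rw [this]
      rw [smul_add, smul_add]
      abel
    rw [e]
    exact h1
  · have h1 : Filter.Tendsto (fun x : EuclideanSpace ℝ (Fin n) => x + c) (𝓝 0) (𝓝 (0 + c)) := by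
      have h2 : Continuous fun x : EuclideanSpace ℝ (Fin n) => x + c := by fun_prop
      exact h2.tendsto 0
    rw [zero_add] at h1
    exact h1 (mem_interior_iff_mem_nhds.1 hint)

theorem sz_recentre {n r : ℕ} {F : Set (EuclideanSpace ℝ (Fin n))} (c : EuclideanSpace ℝ (Fin n))
    (h : Sz r F) : Sz r {x | x + c ∈ F} := by
  intro s v hv
  obtain ⟨x, hx⟩ := h s v (fun J hJ => by
    obtain ⟨x, hx⟩ := hv J hJ
    refine ⟨x + c, fun j hj => ?_⟩
    have h1 : x - v j + c ∈ F := hx j hj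
    have : x + c - v j = x - v j + c := by abel
    rw [this]
    exact h1)
  refine ⟨x - c, fun j => ?_⟩
  change x - c - v j + c ∈ F
  have : x - c - v j + c = x - v j := by abel
  rw [this]
  exact hx j

/-- The theorem. -/
theorem uc {n r : ℕ} {F : Set (EuclideanSpace ℝ (Fin n))} (hc : IsCompact F)
    (hconv : Convex ℝ F) (hint : (interior F).Nonempty) (h : Sz (r + 1) F) :
    ∃ (e : EuclideanSpace ℝ (Fin n) ≃ₗ[ℝ] (Fin n → ℝ)) (B : Finset (Fin n → ℝ)),
      B.card ≤ 2 * n ∧ (∀ b ∈ B, {i | b i ≠ 0}.ncard ≤ K r + 1) ∧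
      ∀ x, (∀ T ⊆ B, T.card ≤ r + 1 → ∃ z ∈ F, ∀ b ∈ T, ∑ i, b i * e z i = ∑ i, b i * e x i) →
        x ∈ F := by
  obtain ⟨c, hcF⟩ := hint
  obtain ⟨e, B, h0, h1, h2⟩ := uc_body (body_of hc hconv hcF) (sz_recentre c h)
  refine ⟨e, B, h0, h1, fun x hx => ?_⟩
  have h3 := h2 (x - c) (fun T hT hT' => by
    obtain ⟨z, hz, hzT⟩ := hx T hT hT'
    refine ⟨z - c, ?_, fun b hb => ?_⟩
    · change z - c + c ∈ F
      rw [sub_add_cancel]
      exact hz
    · simp only [map_sub, Pi.sub_apply, mul_sub, Finset.sum_sub_distrib, hzT b hb])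
  have h4 : x - c + c ∈ F := h3
  rwa [sub_add_cancel] at h4

/-- Cylinders over coordinate subspaces. -/
theorem cyl_of {n r k m : ℕ} {F : Set (EuclideanSpace ℝ (Fin n))}
    {e : EuclideanSpace ℝ (Fin n) ≃ₗ[ℝ] (Fin n → ℝ)} {B : Finset (Fin n → ℝ)}
    (h1 : ∀ b ∈ B, {i | b i ≠ 0}.ncard ≤ k)
    (h2 : ∀ x, (∀ T ⊆ B, T.card ≤ r → ∃ z ∈ F, ∀ b ∈ T, ∑ i, b i * e z i = ∑ i, b i * e x i) →
        x ∈ F) (hm : r * k ≤ m) (x : EuclideanSpace ℝ (Fin n))
    (hx : ∀ I : Finset (Fin n), I.card ≤ m → ∃ z ∈ F, ∀ i ∈ I, e z i = e x i) : x ∈ F := by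
  classical
  apply h2 x
  intro T hT hT'
  obtain ⟨z, hz, hzI⟩ := hx (T.biUnion fun b => Finset.univ.filter fun i => b i ≠ 0) (by
    refine (Finset.card_biUnion_le_card_mul T _ k fun b hb => ?_).trans
      ((Nat.mul_le_mul_right _ hT').trans hm)
    have h3 := h1 b (hT hb)
    rwa [Set.ncard_eq_toFinset_card', Set.toFinset_ofPred] at h3)
  refine ⟨z, hz, fun b hb => Finset.sum_congr rfl fun i _ => ?_⟩
  by_cases hi : b i = 0
  · rw [hi, zero_mul, zero_mul]
  · rw [hzI i (Finset.mem_biUnion.2 ⟨b, hb, Finset.mem_filter.2 ⟨Finset.mem_univ _, hi⟩⟩)]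

end Pool.Agent.Helper57.UC
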